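import Mathlib

set_option autoImplicit false

/-!
A Bessel type inequality for weighted sums.
-/

namespace Pool.Agent.Lib.MP_bf61d2_nt

open Filter Topology

variable {ι τ : Type*}

lemma summable_mul_bdd {w g : ι → ℝ} (hw : Summable w) (hw0 : ∀ i, 0 ≤ w i) {B : ℝ}
    (hg : ∀ i, |g i| ≤ B) : Summable fun i => w i * g i := by
  refine Summable.of_norm_bounded (hw.mul_right B) fun i => ?_
  rw [norm_mul, Real.norm_eq_abs, Real.norm_eq_abs, abs_of_nonneg (hw0 i)]
  exact mul_le_mul_of_nonneg_left (hg i) (hw0 i)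

theorem bessel (w c : ι → ℝ) (e f : τ → ι → ℝ) (T : Finset τ) {P C B : ℝ}
    (hw : Summable w) (hw0 : ∀ i, 0 ≤ w i) (hc : ∀ i, |c i| ≤ B)
    (he : ∀ t i, |e t i| ≤ 1) (hf : ∀ t i, |f t i| ≤ 1)
    (hdiag : ∀ t ∈ T, ∑' i, w i * (e t i * e t i + f t i * f t i) ≤ P)
    (hoff : ∀ t ∈ T, ∀ t' ∈ T, t ≠ t' →
      |∑' i, w i * (e t i * e t' i + f t i * f t' i)| ≤ C)
    (hP : 0 < P) (hC : 0 ≤ C) :
    ∑ t ∈ T, (∑' i, w i * (c i * e t i)) ^ 2 ≤ (P + C * T.card) * ∑' i, w i * c i ^ 2 := by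
  classical
  set X : τ → ℝ := fun t => ∑' i, w i * (c i * e t i) with hX
  set L : ℝ := P + C * T.card with hL
  have hL0 : 0 < L := by positivity
  set S : ℝ := ∑ t ∈ T, X t ^ 2 with hS
  set G : ι → ℝ := fun i => ∑ t ∈ T, X t * e t i with hG
  set H : ι → ℝ := fun i => ∑ t ∈ T, X t * f t i with hH
  set A : ℝ := ∑ t ∈ T, |X t| with hA
  have hA0 : 0 ≤ A := Finset.sum_nonneg fun t _ => abs_nonneg _
  have hGb : ∀ i, |G i| ≤ A := fun i => by
    refine (Finset.abs_sum_le_sum_abs _ _).trans (Finset.sum_le_sum fun t _ => ?_)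
    rw [abs_mul]
    exact mul_le_of_le_one_right (abs_nonneg _) (he t i)
  have hHb : ∀ i, |H i| ≤ A := fun i => by
    refine (Finset.abs_sum_le_sum_abs _ _).trans (Finset.sum_le_sum fun t _ => ?_)
    rw [abs_mul]
    exact mul_le_of_le_one_right (abs_nonneg _) (hf t i)
  have hB0 : ∀ i, 0 ≤ B := fun i => (abs_nonneg _).trans (hc i)
  have hce : ∀ t i, |c i * e t i| ≤ B := fun t i => by
    rw [abs_mul]
    calc |c i| * |e t i| ≤ B * 1 := mul_le_mul (hc i) (he t i) (abs_nonneg _) (hB0 i)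
      _ = B := mul_one B
  have hsq : ∀ {x b : ℝ}, |x| ≤ b → |x ^ 2| ≤ b ^ 2 := fun {x b} h => by
    rw [abs_pow]; exact pow_le_pow_left₀ (abs_nonneg _) h 2
  have s1 : ∀ t, Summable fun i => w i * (c i * e t i) := fun t =>
    summable_mul_bdd hw hw0 (hce t)
  have s2 : Summable fun i => w i * c i ^ 2 := summable_mul_bdd hw hw0 fun i => hsq (hc i)
  have s3 : Summable fun i => w i * (G i ^ 2 + H i ^ 2) := by
    have h1 := summable_mul_bdd hw hw0 fun i => hsq (hGb i)
    have h2 := summable_mul_bdd hw hw0 fun i => hsq (hHb i)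
    exact (h1.add h2).congr fun i => by ring
  have s4 : ∀ t t', Summable fun i => w i * (e t i * e t' i + f t i * f t' i) := fun t t' => by
    refine summable_mul_bdd hw hw0 (B := 2) fun i => ?_
    have h1 : |e t i * e t' i| ≤ 1 := by
      rw [abs_mul]; exact mul_le_one₀ (he t i) (abs_nonneg _) (he t' i)
    have h2 : |f t i * f t' i| ≤ 1 := by
      rw [abs_mul]; exact mul_le_one₀ (hf t i) (abs_nonneg _) (hf t' i)
    exact (abs_add_le _ _).trans (by linarith)
  -- the sum of squares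
  have hS1 : S = ∑' i, w i * (c i * G i) := by
    have h1 : S = ∑ t ∈ T, ∑' i, X t * (w i * (c i * e t i)) := by
      refine Finset.sum_congr rfl fun t _ => ?_
      rw [tsum_mul_left, sq]
    rw [h1, ← Summable.tsum_finsetSum fun t _ => (s1 t).mul_left _]
    refine tsum_congr fun i => ?_
    rw [hG, Finset.mul_sum, Finset.mul_sum]
    exact Finset.sum_congr rfl fun t _ => by ring
  have s5 : Summable fun i => w i * (c i * G i) := by
    refine summable_mul_bdd hw hw0 (B := B * A) fun i => ?_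
    rw [abs_mul]
    exact mul_le_mul (hc i) (hGb i) (abs_nonneg _) (hB0 i)
  -- the quadratic form
  have hQ : ∑' i, w i * (G i ^ 2 + H i ^ 2) ≤ L * S := by
    have h1 : ∀ i, w i * (G i ^ 2 + H i ^ 2) = ∑ t ∈ T, ∑ t' ∈ T,
        X t * X t' * (w i * (e t i * e t' i + f t i * f t' i)) := by
      intro i
      rw [sq, sq, hG, hH, Finset.sum_mul_sum, Finset.sum_mul_sum, ← Finset.sum_add_distrib,
        Finset.mul_sum]
      refine Finset.sum_congr rfl fun t _ => ?_
      rw [← Finset.sum_add_distrib, Finset.mul_sum]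
      exact Finset.sum_congr rfl fun t' _ => by ring
    simp_rw [h1]
    rw [Summable.tsum_finsetSum fun t _ => summable_sum fun t' _ => (s4 t t').mul_left _]
    have h2 : ∀ t ∈ T, ∑' i, ∑ t' ∈ T, X t * X t' * (w i * (e t i * e t' i + f t i * f t' i)) =
        ∑ t' ∈ T, X t * X t' * ∑' i, w i * (e t i * e t' i + f t i * f t' i) := by
      intro t _
      rw [Summable.tsum_finsetSum fun t' _ => (s4 t t').mul_left _]
      exact Finset.sum_congr rfl fun t' _ => tsum_mul_left
    rw [Finset.sum_congr rfl h2]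
    have h3 : ∀ t ∈ T, ∀ t' ∈ T,
        X t * X t' * ∑' i, w i * (e t i * e t' i + f t i * f t' i) ≤
          (if t = t' then P * X t ^ 2 else 0) + C * ((X t ^ 2 + X t' ^ 2) / 2) := by
      intro t ht t' ht'
      split_ifs with h
      · subst h
        have h4 := hdiag t ht
        have h5 : 0 ≤ C * ((X t ^ 2 + X t ^ 2) / 2) := by positivity
        nlinarith [mul_le_mul_of_nonneg_left h4 (sq_nonneg (X t))]
      · have h4 := hoff t ht t' ht' h
        have h5 : X t * X t' * ∑' i, w i * (e t i * e t' i + f t i * f t' i) ≤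
            |X t * X t'| * C := by
          refine (le_abs_self _).trans ?_
          rw [abs_mul]
          exact mul_le_mul_of_nonneg_left h4 (abs_nonneg _)
        have h6 : |X t * X t'| ≤ (X t ^ 2 + X t' ^ 2) / 2 := by
          rw [abs_le]
          constructor <;> nlinarith [sq_nonneg (X t - X t'), sq_nonneg (X t + X t')]
        nlinarith [mul_le_mul_of_nonneg_right h6 hC]
    refine (Finset.sum_le_sum fun t ht => Finset.sum_le_sum fun t' ht' => h3 t ht t' ht').trans ?_
    have h7 : ∑ t ∈ T, ∑ t' ∈ T, ((if t = t' then P * X t ^ 2 else 0) +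
        C * ((X t ^ 2 + X t' ^ 2) / 2)) = P * S + C * T.card * S := by
      have h8 : ∀ t ∈ T, ∑ t' ∈ T, ((if t = t' then P * X t ^ 2 else 0) +
          C * ((X t ^ 2 + X t' ^ 2) / 2)) = P * X t ^ 2 + C * ((T.card * X t ^ 2 + S) / 2) := by
        intro t ht
        rw [Finset.sum_add_distrib, Finset.sum_ite_eq, if_pos ht, ← Finset.mul_sum,
          ← Finset.sum_div, Finset.sum_add_distrib, Finset.sum_const, nsmul_eq_mul]
      rw [Finset.sum_congr rfl h8, Finset.sum_add_distrib, ← Finset.mul_sum, ← Finset.mul_sum,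
        ← Finset.sum_div, Finset.sum_add_distrib, ← Finset.mul_sum, Finset.sum_const,
        nsmul_eq_mul]
      ring
    rw [h7, hL]
    linarith
  -- conclusion
  have key : 2 * S ≤ L * (∑' i, w i * c i ^ 2) + L⁻¹ * ∑' i, w i * (G i ^ 2 + H i ^ 2) := by
    rw [hS1, ← tsum_mul_left, ← tsum_mul_left, ← tsum_mul_left,
      ← (s2.mul_left L).tsum_add (s3.mul_left L⁻¹)]
    refine Summable.tsum_le_tsum (fun i => ?_) (s5.mul_left 2)
      ((s2.mul_left L).add (s3.mul_left L⁻¹))
    have h1 : 2 * (c i * G i) ≤ L * c i ^ 2 + L⁻¹ * G i ^ 2 := by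
      have h2 : 0 ≤ L * (c i - L⁻¹ * G i) ^ 2 := by positivity
      have h3 : L * (c i - L⁻¹ * G i) ^ 2 = L * c i ^ 2 + L⁻¹ * G i ^ 2 - 2 * (c i * G i) := by
        field_simp
        ring
      linarith
    have h4 : 0 ≤ L⁻¹ * H i ^ 2 := by positivity
    calc 2 * (w i * (c i * G i)) = w i * (2 * (c i * G i)) := by ring
      _ ≤ w i * (L * c i ^ 2 + L⁻¹ * G i ^ 2 + L⁻¹ * H i ^ 2) :=
          mul_le_mul_of_nonneg_left (by linarith) (hw0 i)
      _ = _ := by ring
  have h9 : L⁻¹ * ∑' i, w i * (G i ^ 2 + H i ^ 2) ≤ S := by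
    calc L⁻¹ * ∑' i, w i * (G i ^ 2 + H i ^ 2) ≤ L⁻¹ * (L * S) :=
          mul_le_mul_of_nonneg_left hQ (by positivity)
      _ = S := by field_simp
  linarith

end Pool.Agent.Lib.MP_bf61d2_nt
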