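import Mathlib

set_option autoImplicit false

/-!
Sums of `p ^ (-σ) cos (τ log p)` over the primes as `σ → 1+`.
-/

namespace Pool.Agent.Lib.MP_bf61d2_nt

open Filter Topology

/-- The cosine sum. -/
noncomputable def PC (σ τ : ℝ) : ℝ :=
  ∑' p : Nat.Primes, (p : ℝ) ^ (-σ) * Real.cos (τ * Real.log p)

lemma cpow_re {n : ℕ} (hn : n ≠ 0) (σ τ : ℝ) :
    ((n : ℂ) ^ (-(σ + τ * Complex.I))).re = (n : ℝ) ^ (-σ) * Real.cos (τ * Real.log n) := by
  have hn0 : (n : ℂ) ≠ 0 := by exact_mod_cast hn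
  have hn1 : (0 : ℝ) < n := by exact_mod_cast Nat.pos_of_ne_zero hn
  have e : (n : ℂ) ^ (-(σ + τ * Complex.I)) =
      ((n : ℝ) ^ (-σ) : ℝ) * Complex.exp ((-(τ * Real.log n) : ℝ) * Complex.I) := by
    rw [neg_add, Complex.cpow_add _ _ hn0, Complex.ofReal_cpow hn1.le,
      Complex.cpow_def_of_ne_zero hn0 (-(τ * Complex.I)), ← Complex.natCast_log]
    congr 1
    · push_cast; rfl
    · congr 1; push_cast; ring
  rw [e, Complex.re_ofReal_mul, Complex.exp_ofReal_mul_I_re, Real.cos_neg]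

lemma summable_primes {σ : ℝ} (hσ : 1 < σ) : Summable fun p : Nat.Primes => (p : ℝ) ^ (-σ) :=
  Nat.Primes.summable_rpow.mpr (by linarith)

lemma summable_PC {σ : ℝ} (hσ : 1 < σ) (τ : ℝ) :
    Summable fun p : Nat.Primes => (p : ℝ) ^ (-σ) * Real.cos (τ * Real.log p) := by
  refine Summable.of_norm_bounded (summable_primes hσ) fun p => ?_
  rw [norm_mul, Real.norm_eq_abs, Real.norm_eq_abs, abs_of_nonneg (by positivity)]
  exact mul_le_of_le_one_right (by positivity) (Real.abs_cos_le_one _)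

/-- The constant in the comparison with the zeta function. -/
noncomputable def zC : ℝ := ∑' p : Nat.Primes, (p : ℝ) ^ (-2 : ℝ)

lemma abs_PC_sub_le {σ : ℝ} (hσ : 1 < σ) (τ : ℝ) :
    |PC σ τ - Real.log ‖riemannZeta (σ + τ * Complex.I)‖| ≤ zC := by
  set s : ℂ := σ + τ * Complex.I with hs
  have hsre : s.re = σ := by simp [hs]
  have hs1 : 1 < s.re := by rw [hsre]; exact hσ
  have hz : ∀ p : Nat.Primes, ‖((p : ℕ) : ℂ) ^ (-s)‖ = (p : ℝ) ^ (-σ) := fun p => by
    rw [Complex.norm_natCast_cpow_of_pos p.prop.pos, Complex.neg_re, hsre]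
  have hhalf : ∀ p : Nat.Primes, (p : ℝ) ^ (-σ) ≤ 1 / 2 := fun p => by
    have h2 : (2 : ℝ) ≤ p := by exact_mod_cast p.prop.two_le
    calc (p : ℝ) ^ (-σ) ≤ (p : ℝ) ^ (-1 : ℝ) :=
          Real.rpow_le_rpow_of_exponent_le (by linarith) (by linarith)
      _ = (p : ℝ)⁻¹ := Real.rpow_neg_one _
      _ ≤ 1 / 2 := by
          rw [one_div]; exact inv_anti₀ (by norm_num) h2
  have hsum1 : Summable fun p : Nat.Primes => ((p : ℕ) : ℂ) ^ (-s) :=
    Summable.of_norm ((summable_primes hσ).congr fun p => (hz p).symm)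
  have hsum2 : Summable fun p : Nat.Primes => -Complex.log (1 - ((p : ℕ) : ℂ) ^ (-s)) :=
    hsum1.clog_one_sub.neg
  have hexp := riemannZeta_eulerProduct_exp_log hs1
  have hlog : Real.log ‖riemannZeta s‖ =
      (∑' p : Nat.Primes, -Complex.log (1 - ((p : ℕ) : ℂ) ^ (-s))).re := by
    rw [← hexp, Complex.norm_exp, Real.log_exp]
  have hPC : PC σ τ = (∑' p : Nat.Primes, ((p : ℕ) : ℂ) ^ (-s)).re := by
    rw [Complex.re_tsum hsum1, PC]
    exact tsum_congr fun p => (cpow_re p.prop.ne_zero σ τ).symm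
  rw [hlog, hPC, ← Complex.sub_re, ← hsum1.tsum_sub hsum2]
  refine (Complex.abs_re_le_norm _).trans ?_
  have hsq : Summable fun p : Nat.Primes => (p : ℝ) ^ (-2 : ℝ) := summable_primes (by norm_num)
  refine tsum_of_norm_bounded hsq.hasSum fun p => ?_
  have h1 : ‖((p : ℕ) : ℂ) ^ (-s)‖ ≤ 1 / 2 := by rw [hz]; exact hhalf p
  have h2 := Complex.norm_log_one_add_sub_self_le (z := -((p : ℕ) : ℂ) ^ (-s))
    (by rw [norm_neg]; linarith)
  rw [norm_neg] at h2
  have e : ((p : ℕ) : ℂ) ^ (-s) - -Complex.log (1 - ((p : ℕ) : ℂ) ^ (-s)) =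
      Complex.log (1 + -((p : ℕ) : ℂ) ^ (-s)) - -((p : ℕ) : ℂ) ^ (-s) := by
    rw [sub_eq_add_neg (1 : ℂ)]; ring
  rw [e]
  refine h2.trans ?_
  have h3 : (1 - ‖((p : ℕ) : ℂ) ^ (-s)‖)⁻¹ ≤ 2 := by
    rw [inv_le_comm₀ (by linarith) (by norm_num)]
    linarith
  have h4 : ‖((p : ℕ) : ℂ) ^ (-s)‖ ^ 2 ≤ (p : ℝ) ^ (-2 : ℝ) := by
    have hp0 : (0 : ℝ) < p := by exact_mod_cast p.prop.pos
    have hp1 : (1 : ℝ) ≤ p := by exact_mod_cast p.prop.one_le
    rw [hz, ← Real.rpow_natCast, ← Real.rpow_mul hp0.le]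
    exact Real.rpow_le_rpow_of_exponent_le hp1 (by push_cast; linarith)
  have h5 : 0 ≤ ‖((p : ℕ) : ℂ) ^ (-s)‖ ^ 2 := by positivity
  nlinarith

/-- Boundedness away from frequency zero. -/
theorem PC_bound {τ : ℝ} (hτ : τ ≠ 0) : ∃ C : ℝ, 0 ≤ C ∧ ∀ᶠ σ : ℝ in 𝓝[>] 1, |PC σ τ| ≤ C := by
  have hne1 : (1 : ℂ) + τ * Complex.I ≠ 1 := by
    intro h
    have := congrArg Complex.im h
    simp at this
    exact hτ this
  have hz : riemannZeta (1 + τ * Complex.I) ≠ 0 := riemannZeta_ne_zero_of_one_le_re (by simp)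
  have hcont : Tendsto (fun σ : ℝ => Real.log ‖riemannZeta (σ + τ * Complex.I)‖) (𝓝[>] 1)
      (𝓝 (Real.log ‖riemannZeta (1 + τ * Complex.I)‖)) := by
    have h1 : ContinuousAt (fun σ : ℝ => Real.log ‖riemannZeta (σ + τ * Complex.I)‖) 1 := by
      have h2 : ContinuousAt riemannZeta (((1 : ℝ) : ℂ) + τ * Complex.I) := by
        rw [Complex.ofReal_one]
        exact (differentiableAt_riemannZeta hne1).continuousAt
      have h3 : ContinuousAt (fun σ : ℝ => riemannZeta (σ + τ * Complex.I)) 1 :=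
        ContinuousAt.comp (f := fun σ : ℝ => (σ : ℂ) + τ * Complex.I) h2 (by fun_prop)
      refine ContinuousAt.log h3.norm ?_
      rw [Complex.ofReal_one]
      exact norm_ne_zero_iff.mpr hz
    have h4 := h1.tendsto
    rw [Complex.ofReal_one] at h4
    exact h4.mono_left nhdsWithin_le_nhds
  have h5 := hcont.eventually (Metric.ball_mem_nhds _ one_pos)
  have hzC : 0 ≤ zC := tsum_nonneg fun p => by positivity
  refine ⟨|Real.log ‖riemannZeta (1 + τ * Complex.I)‖| + 1 + zC, by positivity, ?_⟩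
  filter_upwards [h5, self_mem_nhdsWithin] with σ h6 hσ
  rw [Real.dist_eq] at h6
  have h7 := abs_PC_sub_le hσ τ
  have h8 := abs_lt.mp h6
  have h9 := abs_le.mp h7
  have h10 := le_abs_self (Real.log ‖riemannZeta (1 + τ * Complex.I)‖)
  have h11 := neg_abs_le (Real.log ‖riemannZeta (1 + τ * Complex.I)‖)
  rw [abs_le]
  constructor <;> linarith [h8.1, h8.2, h9.1, h9.2]

/-- The behaviour at frequency zero. -/
theorem PC_zero : ∃ C : ℝ, 0 ≤ C ∧ ∀ᶠ σ : ℝ in 𝓝[>] 1, |PC σ 0 - Real.log (1 / (σ - 1))| ≤ C := by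
  have h1 : Tendsto (fun σ : ℝ => Real.log ‖((σ : ℂ) - 1) * riemannZeta σ‖) (𝓝[>] 1) (𝓝 0) := by
    have h2 : Tendsto (fun σ : ℝ => (σ : ℂ)) (𝓝[>] 1) (𝓝[≠] 1) := by
      refine tendsto_nhdsWithin_iff.mpr ⟨?_, ?_⟩
      · have : Tendsto (fun σ : ℝ => (σ : ℂ)) (𝓝 1) (𝓝 ((1 : ℝ) : ℂ)) :=
          Complex.continuous_ofReal.tendsto 1
        rw [Complex.ofReal_one] at this
        exact this.mono_left nhdsWithin_le_nhds
      · filter_upwards [self_mem_nhdsWithin] with σ hσ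
        have hσ' : (1 : ℝ) < σ := hσ
        intro h
        have h' : (σ : ℂ) = 1 := h
        have : (σ : ℝ) = 1 := by exact_mod_cast h'
        linarith
    have h3 := (riemannZeta_residue_one.comp h2).norm
    have h4 := (Real.continuousAt_log (by rw [norm_one]; norm_num : ‖(1 : ℂ)‖ ≠ 0)).tendsto.comp h3
    rw [norm_one, Real.log_one] at h4
    exact h4
  have h5 := h1.eventually (Metric.ball_mem_nhds _ one_pos)
  have hzC : 0 ≤ zC := tsum_nonneg fun p => by positivity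
  refine ⟨1 + zC, by positivity, ?_⟩
  filter_upwards [h5, self_mem_nhdsWithin] with σ h6 hσ
  have hσ' : (1 : ℝ) < σ := hσ
  have hσ0 : 0 < σ - 1 := by linarith
  have hne : riemannZeta (σ : ℂ) ≠ 0 := riemannZeta_ne_zero_of_one_le_re (by simpa using hσ'.le)
  have e : ‖(σ : ℂ) - 1‖ = σ - 1 := by
    rw [← Complex.ofReal_one, ← Complex.ofReal_sub, Complex.norm_real, Real.norm_eq_abs,
      abs_of_pos hσ0]
  rw [Real.dist_eq, sub_zero, norm_mul, e, Real.log_mul hσ0.ne' (norm_ne_zero_iff.mpr hne)] at h6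
  have h7 := abs_PC_sub_le hσ 0
  rw [Complex.ofReal_zero, zero_mul, add_zero] at h7
  have h8 := abs_lt.mp h6
  have h9 := abs_le.mp h7
  rw [one_div, Real.log_inv, abs_le]
  constructor <;> linarith [h8.1, h8.2, h9.1, h9.2]

end Pool.Agent.Lib.MP_bf61d2_nt
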