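import Pool.Agent.Lib.MP_bf61d2_nt.Places

set_option autoImplicit false

/-!
The sum over the places of a number field of `q_v ^ (-σ)`, for `σ → 1+`.
-/

namespace Pool.Agent.Lib.MP_bf61d2_nt

open NumberField IsDedekindDomain Filter Topology

variable {K : Type*} [Field K] [NumberField K]

/-- The weight of an ideal. -/
noncomputable def wI (σ : ℝ) (I : Ideal (𝓞 K)) : ℝ := (Ideal.absNorm I : ℝ) ^ (-σ)

lemma wI_nonneg (σ : ℝ) (I : Ideal (𝓞 K)) : 0 ≤ wI σ I := by unfold wI; positivity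

lemma wI_mul (σ : ℝ) (I J : Ideal (𝓞 K)) : wI σ (I * J) = wI σ I * wI σ J := by
  rw [wI, map_mul, Nat.cast_mul, Real.mul_rpow (Nat.cast_nonneg _) (Nat.cast_nonneg _)]
  rfl

lemma wI_one (σ : ℝ) : wI σ (1 : Ideal (𝓞 K)) = 1 := by
  rw [wI, map_one, Nat.cast_one, Real.one_rpow]

/-- The weight as a monoid homomorphism. -/
noncomputable def wHom (σ : ℝ) : Ideal (𝓞 K) →* ℝ where
  toFun := wI σ
  map_one' := wI_one σ
  map_mul' := wI_mul σ

/-- The weight of a place. -/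
noncomputable def wp (σ : ℝ) (v : HeightOneSpectrum (𝓞 K)) : ℝ := (nm v : ℝ) ^ (-σ)

lemma wI_asIdeal (σ : ℝ) (v : HeightOneSpectrum (𝓞 K)) : wI σ v.asIdeal = wp σ v := rfl

lemma nm_pos' (v : HeightOneSpectrum (𝓞 K)) : (0 : ℝ) < nm v := by
  have := one_lt_nm v
  exact_mod_cast (by omega : 0 < nm v)

lemma wp_pos (σ : ℝ) (v : HeightOneSpectrum (𝓞 K)) : 0 < wp σ v :=
  Real.rpow_pos_of_pos (nm_pos' v) _

lemma wp_le {σ : ℝ} (hσ : 1 ≤ σ) (v : HeightOneSpectrum (𝓞 K)) : wp σ v ≤ 1 / pr v := by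
  have hp0 : (0 : ℝ) < pr v := by exact_mod_cast (pr_prime v).pos
  have h1 : (1 : ℝ) ≤ nm v := by exact_mod_cast (one_lt_nm v).le
  calc wp σ v ≤ (nm v : ℝ) ^ (-1 : ℝ) := Real.rpow_le_rpow_of_exponent_le h1 (by linarith)
    _ = 1 / nm v := by rw [Real.rpow_neg_one, one_div]
    _ ≤ 1 / pr v := by
        apply one_div_le_one_div_of_le hp0
        exact_mod_cast pr_le_nm v

lemma wp_le_half {σ : ℝ} (hσ : 1 ≤ σ) (v : HeightOneSpectrum (𝓞 K)) : wp σ v ≤ 1 / 2 := by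
  refine (wp_le hσ v).trans ?_
  apply one_div_le_one_div_of_le (by norm_num)
  exact_mod_cast (pr_prime v).two_le

lemma wp_le_pr {σ : ℝ} (hσ : 0 ≤ σ) (v : HeightOneSpectrum (𝓞 K)) :
    wp σ v ≤ (pr v : ℝ) ^ (-σ) := by
  have hp0 : (0 : ℝ) < pr v := by exact_mod_cast (pr_prime v).pos
  exact Real.rpow_le_rpow_of_nonpos hp0 (by exact_mod_cast pr_le_nm v) (by linarith)

lemma summable_wp {σ : ℝ} (hσ : 1 < σ) :
    Summable fun v : HeightOneSpectrum (𝓞 K) => wp σ v := by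
  have h1 : Summable fun n : ℕ => (n : ℝ) ^ (-σ) := Real.summable_nat_rpow.mpr (by linarith)
  have h2 : Summable fun v : HeightOneSpectrum (𝓞 K) => (pr v : ℝ) ^ (-σ) :=
    summable_pr (h := fun n : ℕ => (n : ℝ) ^ (-σ)) (fun n => by positivity) h1
  exact Summable.of_nonneg_of_le (fun v => (wp_pos σ v).le)
    (fun v => wp_le_pr (by linarith) v) h2

/-- The bound for the sum of squares. -/
noncomputable def sqC (K : Type*) [Field K] [NumberField K] : ℝ :=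
  ∑' v : HeightOneSpectrum (𝓞 K), (1 / (pr v : ℝ) ^ 2)

lemma summable_pr_sq : Summable fun v : HeightOneSpectrum (𝓞 K) => (1 / (pr v : ℝ) ^ 2) :=
  summable_pr (h := fun n : ℕ => 1 / (n : ℝ) ^ 2) (fun n => by positivity)
    (Real.summable_one_div_nat_pow.mpr (by norm_num))

lemma sum_wp_sq_le {σ : ℝ} (hσ : 1 ≤ σ) (S : Finset (HeightOneSpectrum (𝓞 K))) :
    ∑ v ∈ S, wp σ v ^ 2 ≤ sqC K := by
  refine le_trans (Finset.sum_le_sum fun v _ => ?_)
    (summable_pr_sq.sum_le_tsum S fun v _ => by positivity)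
  calc wp σ v ^ 2 ≤ (1 / pr v) ^ 2 := pow_le_pow_left₀ (wp_pos σ v).le (wp_le hσ v) 2
    _ = _ := by ring

/-- The exponent of a place in an ideal. -/
noncomputable def ev (I : Ideal (𝓞 K)) (v : HeightOneSpectrum (𝓞 K)) : ℕ := by
  classical exact (Associates.mk v.asIdeal).count (Associates.mk I).factors

lemma exists_support (I : Ideal (𝓞 K)) (hI : I ≠ 0) :
    ∃ S₀ : Finset (HeightOneSpectrum (𝓞 K)), ∀ S : Finset (HeightOneSpectrum (𝓞 K)), S₀ ⊆ S →
      I = ∏ v ∈ S, v.asIdeal ^ ev I v := by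
  classical
  have hfin : (Function.mulSupport fun v : HeightOneSpectrum (𝓞 K) =>
    v.maxPowDividing I).Finite := Ideal.hasFiniteMulSupport hI
  refine ⟨Set.Finite.toFinset hfin, fun S hS => ?_⟩
  conv_lhs => rw [← Ideal.finprod_heightOneSpectrum_factorization hI]
  rw [finprod_eq_prod_of_mulSupport_subset]
  · rfl
  · intro v hv
    apply Finset.mem_coe.mpr
    apply hS
    rw [Set.Finite.mem_toFinset]
    exact hv

lemma sum_prod_pow_le {ι α : Type*} [DecidableEq ι] (S : Finset ι) (F : Finset α)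
    (e : α → ι → ℕ) (w : ι → ℝ) (h0 : ∀ v, 0 ≤ w v) (h1 : ∀ v, w v < 1)
    (hinj : ∀ I ∈ F, ∀ J ∈ F, (∀ v ∈ S, e I v = e J v) → I = J) :
    ∑ I ∈ F, ∏ v ∈ S, w v ^ e I v ≤ ∏ v ∈ S, (1 - w v)⁻¹ := by
  classical
  set k : ℕ := (F ×ˢ S).sup (fun x => e x.1 x.2) + 1 with hk
  have hlt : ∀ I ∈ F, ∀ v ∈ S, e I v < k := by
    intro I hI v hv
    have := Finset.le_sup (f := fun x : α × ι => e x.1 x.2)
      (Finset.mem_product.mpr ⟨hI, hv⟩ : (I, v) ∈ F ×ˢ S)
    simp only at this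
    omega
  have hinj' : Set.InjOn (fun (I : α) (v : S) => e I v) (F : Set α) := by
    intro I hIF J hJF h
    exact hinj I hIF J hJF fun v hv => congrFun h ⟨v, hv⟩
  calc ∑ I ∈ F, ∏ v ∈ S, w v ^ e I v
      = ∑ I ∈ F, (fun x : S → ℕ => ∏ v : S, w v ^ (x v)) (fun v : S => e I v) := by
        refine Finset.sum_congr rfl fun I _ => ?_
        exact (Finset.prod_coe_sort S fun v => w v ^ e I v).symm
    _ = ∑ x ∈ F.image (fun (I : α) (v : S) => e I v), ∏ v : S, w v ^ (x v) := by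
        rw [Finset.sum_image hinj']
    _ ≤ ∑ x ∈ Fintype.piFinset (fun _ : S => Finset.range k), ∏ v : S, w v ^ (x v) := by
        refine Finset.sum_le_sum_of_subset_of_nonneg ?_ fun x _ _ =>
          Finset.prod_nonneg fun v _ => pow_nonneg (h0 _) _
        intro x hx
        obtain ⟨I, hIF, rfl⟩ := Finset.mem_image.mp hx
        exact Fintype.mem_piFinset.mpr fun v => Finset.mem_range.mpr (hlt I hIF v v.2)
    _ = ∏ v : S, ∑ j ∈ Finset.range k, w v ^ j := by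
        rw [Finset.prod_univ_sum]
    _ ≤ ∏ v : S, (1 - w v)⁻¹ := by
        refine Finset.prod_le_prod (fun v _ => Finset.sum_nonneg fun j _ =>
          pow_nonneg (h0 _) _) fun v _ => ?_
        have h4 := summable_geometric_of_lt_one (h0 v) (h1 v)
        rw [← tsum_geometric_of_lt_one (h0 v) (h1 v)]
        exact h4.sum_le_tsum _ fun j _ => pow_nonneg (h0 v) _
    _ = _ := Finset.prod_coe_sort S fun v => (1 - w v)⁻¹

/-- Upper bound for finite sums over ideals. -/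
lemma sum_wI_le {σ : ℝ} (hσ : 1 < σ) (F : Finset (Ideal (𝓞 K))) (hF : ∀ I ∈ F, I ≠ 0) :
    ∃ S : Finset (HeightOneSpectrum (𝓞 K)), ∑ I ∈ F, wI σ I ≤ ∏ v ∈ S, (1 - wp σ v)⁻¹ := by
  classical
  choose! S₀ hS₀ using fun (I : Ideal (𝓞 K)) (hI : I ≠ 0) => exists_support (K := K) I hI
  have hsub : ∀ I ∈ F, S₀ I ⊆ F.biUnion S₀ := fun I hI => Finset.subset_biUnion_of_mem S₀ hI
  refine ⟨F.biUnion S₀, ?_⟩
  generalize F.biUnion S₀ = S at hsub
  have hI : ∀ I ∈ F, I = ∏ v ∈ S, v.asIdeal ^ ev I v := fun I hI =>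
    hS₀ I (hF I hI) S (hsub I hI)
  have h1 : ∀ I ∈ F, wI σ I = ∏ v ∈ S, wp σ v ^ ev I v := by
    intro I hIF
    have h2 : wI σ (∏ v ∈ S, v.asIdeal ^ ev I v) = ∏ v ∈ S, wp σ v ^ ev I v := by
      change wHom σ _ = _
      rw [map_prod]
      refine Finset.prod_congr rfl fun v _ => ?_
      rw [map_pow]
      rfl
    rw [← h2, ← hI I hIF]
  rw [Finset.sum_congr rfl h1]
  refine sum_prod_pow_le S F (fun I v => ev I v) (wp σ) (fun v => (wp_pos σ v).le)
    (fun v => lt_of_le_of_lt (wp_le_half hσ.le v) (by norm_num)) ?_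
  intro I hIF J hJF h
  rw [hI I hIF, hI J hJF]
  exact Finset.prod_congr rfl fun v hv => by rw [h v hv]

/-- Lower bound for sums over ideals. -/
lemma prod_one_add_eq (σ : ℝ) (S : Finset (HeightOneSpectrum (𝓞 K))) :
    ∃ F : Finset (Ideal (𝓞 K)), (∀ I ∈ F, I ≠ 0) ∧ ∏ v ∈ S, (1 + wp σ v) = ∑ I ∈ F, wI σ I := by
  classical
  set ψ : Finset (HeightOneSpectrum (𝓞 K)) → Ideal (𝓞 K) := fun T => ∏ v ∈ T, v.asIdeal with hψ
  have hmem : ∀ T : Finset (HeightOneSpectrum (𝓞 K)), ∀ v, v ∈ T ↔ v.asIdeal ∣ ψ T := by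
    intro T v
    constructor
    · intro hv
      exact Finset.dvd_prod_of_mem (fun v : HeightOneSpectrum (𝓞 K) => v.asIdeal) hv
    · intro hv
      obtain ⟨w, hw, hvw⟩ := (Prime.dvd_finsetProd_iff v.prime _).mp hv
      have h1 : w.asIdeal ≤ v.asIdeal := Ideal.le_of_dvd hvw
      have h2 : w.asIdeal = v.asIdeal := w.isMaximal.eq_of_le v.isPrime.ne_top h1
      rwa [← HeightOneSpectrum.ext h2]
  have hinj : Function.Injective ψ := by
    intro T U h
    ext v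
    rw [hmem, hmem, h]
  refine ⟨S.powerset.image ψ, ?_, ?_⟩
  · intro I hI
    obtain ⟨T, -, rfl⟩ := Finset.mem_image.mp hI
    exact Finset.prod_ne_zero_iff.mpr fun v _ => v.ne_bot
  · rw [Finset.sum_image hinj.injOn, Finset.prod_one_add]
    refine Finset.sum_congr rfl fun T _ => ?_
    change _ = wHom σ _
    rw [hψ, map_prod]
    rfl

/-- The prime sum. -/
noncomputable def PS (K : Type*) [Field K] [NumberField K] (σ : ℝ) : ℝ :=
  ∑' v : HeightOneSpectrum (𝓞 K), wp σ v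

lemma inv_one_sub_le {w : ℝ} (h0 : 0 ≤ w) (h1 : w ≤ 1 / 2) :
    (1 - w)⁻¹ ≤ Real.exp (w + 2 * w ^ 2) := by
  have h2 : 0 < 1 - w := by linarith
  have h3 : w / (1 - w) ≤ w + 2 * w ^ 2 := by
    rw [div_le_iff₀ h2]
    nlinarith [mul_nonneg (mul_nonneg h0 h0) (by linarith : (0 : ℝ) ≤ 1 / 2 - w)]
  calc (1 - w)⁻¹ = w / (1 - w) + 1 := by field_simp; ring
    _ ≤ Real.exp (w / (1 - w)) := Real.add_one_le_exp _
    _ ≤ _ := Real.exp_le_exp.mpr h3

lemma exp_le_one_add {w : ℝ} (h0 : 0 ≤ w) : Real.exp (w - w ^ 2) ≤ 1 + w := by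
  have h2 : 0 < 1 + w := by linarith
  have h3 : w - w ^ 2 ≤ w / (1 + w) := by
    rw [le_div_iff₀ h2]
    nlinarith [mul_nonneg (mul_nonneg h0 h0) h0]
  have h4 : (1 + w)⁻¹ ≤ Real.exp (-(w / (1 + w))) := by
    calc (1 + w)⁻¹ = -(w / (1 + w)) + 1 := by field_simp; ring
      _ ≤ _ := Real.add_one_le_exp _
  rw [Real.exp_neg] at h4
  have h5 := (inv_le_inv₀ h2 (Real.exp_pos _)).mp h4
  exact (Real.exp_le_exp.mpr h3).trans h5

lemma wI_zero {σ : ℝ} (hσ : 0 < σ) : wI σ (0 : Ideal (𝓞 K)) = 0 := by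
  rw [wI, map_zero, Nat.cast_zero, Real.zero_rpow (by linarith)]

lemma sum_wI_le_exp {σ : ℝ} (hσ : 1 < σ) (F : Finset (Ideal (𝓞 K))) :
    ∑ I ∈ F, wI σ I ≤ Real.exp (PS K σ + 2 * sqC K) := by
  classical
  obtain ⟨S, hS⟩ := sum_wI_le hσ (F.filter fun I => I ≠ 0) fun I hI => (Finset.mem_filter.mp hI).2
  have h1 : ∑ I ∈ F, wI σ I = ∑ I ∈ F.filter fun I => I ≠ 0, wI σ I := by
    rw [Finset.sum_filter]
    refine Finset.sum_congr rfl fun I _ => ?_
    split_ifs with h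
    · rfl
    · rw [not_not.mp h, wI_zero (by linarith)]
  rw [h1]
  refine hS.trans ?_
  calc ∏ v ∈ S, (1 - wp σ v)⁻¹ ≤ ∏ v ∈ S, Real.exp (wp σ v + 2 * wp σ v ^ 2) := by
        refine Finset.prod_le_prod (fun v _ => ?_) fun v _ => ?_
        · have := wp_le_half hσ.le v
          exact inv_nonneg.mpr (by linarith)
        · exact inv_one_sub_le (wp_pos σ v).le (wp_le_half hσ.le v)
    _ = Real.exp (∑ v ∈ S, wp σ v + 2 * ∑ v ∈ S, wp σ v ^ 2) := by
        rw [← Real.exp_sum, Finset.sum_add_distrib, Finset.mul_sum]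
    _ ≤ _ := by
        apply Real.exp_le_exp.mpr
        have h2 := sum_wp_sq_le hσ.le S
        have h3 := (summable_wp hσ).sum_le_tsum S fun v _ => (wp_pos σ v).le
        unfold PS
        linarith

lemma summable_wI {σ : ℝ} (hσ : 1 < σ) : Summable fun I : Ideal (𝓞 K) => wI σ I :=
  summable_of_sum_le (fun I => wI_nonneg σ I) fun F => sum_wI_le_exp hσ F

/-- The Dedekind zeta function as a sum over ideals. -/
noncomputable def ZK (K : Type*) [Field K] [NumberField K] (σ : ℝ) : ℝ :=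
  ∑' I : Ideal (𝓞 K), wI σ I

lemma ZK_le {σ : ℝ} (hσ : 1 < σ) : ZK K σ ≤ Real.exp (PS K σ + 2 * sqC K) :=
  (summable_wI hσ).tsum_le_of_sum_le fun F => sum_wI_le_exp hσ F

lemma one_le_ZK {σ : ℝ} (hσ : 1 < σ) : 1 ≤ ZK K σ := by
  have := (summable_wI (K := K) hσ).sum_le_tsum {1} fun I _ => wI_nonneg σ I
  rwa [Finset.sum_singleton, wI_one] at this

lemma le_ZK {σ : ℝ} (hσ : 1 < σ) : Real.exp (PS K σ - sqC K) ≤ ZK K σ := by
  have hpos : 0 < ZK K σ := lt_of_lt_of_le one_pos (one_le_ZK hσ)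
  rw [← Real.le_log_iff_exp_le hpos, sub_le_iff_le_add]
  refine (summable_wp hσ).tsum_le_of_sum_le fun S => ?_
  obtain ⟨F, hF, hS⟩ := prod_one_add_eq (K := K) σ S
  have h1 : ∏ v ∈ S, (1 + wp σ v) ≤ ZK K σ := by
    rw [hS]
    exact (summable_wI hσ).sum_le_tsum F fun I _ => wI_nonneg σ I
  have h2 : Real.exp (∑ v ∈ S, wp σ v - ∑ v ∈ S, wp σ v ^ 2) ≤ ∏ v ∈ S, (1 + wp σ v) := by
    rw [← Finset.sum_sub_distrib, Real.exp_sum]
    exact Finset.prod_le_prod (fun v _ => (Real.exp_pos _).le)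
      fun v _ => exp_le_one_add (wp_pos σ v).le
  have h3 := (Real.le_log_iff_exp_le hpos).mpr (h2.trans h1)
  have h4 := sum_wp_sq_le hσ.le S
  linarith

lemma dedekindZeta_eq {σ : ℝ} (hσ : 1 < σ) : dedekindZeta K (σ : ℂ) = (ZK K σ : ℂ) := by
  have h := (summable_wI (K := K) hσ).hasSum.tsum_fiberwise (fun I => Ideal.absNorm I)
  have h2 : HasSum (fun n : ℕ => (((∑' I : (fun I : Ideal (𝓞 K) => Ideal.absNorm I) ⁻¹' {n},
      wI σ (I : Ideal (𝓞 K))) : ℝ) : ℂ)) (ZK K σ : ℂ) := Complex.hasSum_ofReal.mpr h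
  rw [dedekindZeta, LSeries, ← h2.tsum_eq]
  refine tsum_congr fun n => ?_
  have h3 : ∀ I : (fun I : Ideal (𝓞 K) => Ideal.absNorm I) ⁻¹' {n},
      wI σ (I : Ideal (𝓞 K)) = (n : ℝ) ^ (-σ) := by
    rintro ⟨I, hI⟩
    have hI' : Ideal.absNorm I = n := hI
    rw [wI, hI']
  simp_rw [h3]
  have hfin : Finite ((fun I : Ideal (𝓞 K) => Ideal.absNorm I) ⁻¹' {n}) := by
    have := Ideal.finite_setOfPred_absNorm_eq (S := 𝓞 K) n
    exact this.to_subtype
  have := Fintype.ofFinite ((fun I : Ideal (𝓞 K) => Ideal.absNorm I) ⁻¹' {n})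
  rw [tsum_fintype, Finset.sum_const, nsmul_eq_mul, Finset.card_univ,
    ← Nat.card_eq_fintype_card, LSeries.term_def]
  split_ifs with h0
  · subst h0
    rw [Nat.cast_zero, Real.zero_rpow (by linarith), mul_zero, Complex.ofReal_zero]
  · have hn : (0 : ℝ) ≤ n := Nat.cast_nonneg n
    rw [Complex.ofReal_mul, Complex.ofReal_cpow hn, Complex.ofReal_neg, Complex.cpow_neg,
      div_eq_mul_inv]
    rfl

theorem PS_bound (K : Type*) [Field K] [NumberField K] :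
    ∃ C : ℝ, 0 ≤ C ∧ ∀ᶠ σ : ℝ in 𝓝[>] 1, |PS K σ - Real.log (1 / (σ - 1))| ≤ C := by
  have h1 := tendsto_sub_one_mul_dedekindZeta_nhdsGT K
  have h2 : Tendsto (fun σ : ℝ => (σ - 1) * ZK K σ) (𝓝[>] 1) (𝓝 (dedekindZeta_residue K)) := by
    rw [← tendsto_ofReal_iff]
    refine h1.congr' ?_
    filter_upwards [self_mem_nhdsWithin] with σ hσ
    rw [dedekindZeta_eq hσ]
    simp
  have hκ := dedekindZeta_residue_pos K
  have h3 := (Real.continuousAt_log hκ.ne').tendsto.comp h2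
  have h4 := h3.eventually (Metric.ball_mem_nhds _ one_pos)
  refine ⟨|Real.log (dedekindZeta_residue K)| + 1 + 2 * |sqC K|, by positivity, ?_⟩
  filter_upwards [h4, self_mem_nhdsWithin] with σ hσ1 hσ
  have hσ' : 1 < σ := hσ
  have hσ0 : 0 < σ - 1 := by linarith
  have hZ : 0 < ZK K σ := lt_of_lt_of_le one_pos (one_le_ZK hσ')
  rw [Function.comp_apply, Real.dist_eq, Real.log_mul hσ0.ne' hZ.ne'] at hσ1
  have h5 := (Real.log_le_log hZ (ZK_le hσ')).trans_eq (Real.log_exp _)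
  have h6 := (Real.log_exp _).symm.trans_le (Real.log_le_log (Real.exp_pos _) (le_ZK (K := K) hσ'))
  rw [one_div, Real.log_inv]
  have h7 := abs_lt.mp hσ1
  have h8 := le_abs_self (sqC K)
  have h9 := abs_nonneg (sqC K)
  have h10 := le_abs_self (Real.log (dedekindZeta_residue K))
  have h11 := neg_abs_le (Real.log (dedekindZeta_residue K))
  rw [abs_le]
  constructor <;> linarith [h7.1, h7.2]

end Pool.Agent.Lib.MP_bf61d2_nt
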