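import Pool.Agent.Lib.MP_bf61d2_nt.Structure
import Pool.Agent.Lib.MP_bf61d2_nt.PrimeSum
import Pool.Agent.Lib.MP_bf61d2_nt.PrimeCos
import Pool.Agent.Lib.MP_bf61d2_nt.Bessel

set_option autoImplicit false

/-!
Bessel inequality on vertical lines.
-/

namespace Pool.Agent.Lib.MP_bf61d2_nt

open Filter Topology NumberField IsDedekindDomain ArithmeticFunction

variable {K : Type*} [Field K] [NumberField K] (W : WeierstrassCurve K)

lemma re_LSeries_cp {σ : ℝ} (hσ : 1 < σ) (t : ℝ) :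
    (LSeries (fun n => (cp W n : ℂ)) (σ + t * Complex.I)).re =
      ∑' p : Nat.Primes, (p : ℝ) ^ (-σ) * (cp W p * Real.cos (t * Real.log p)) := by
  have hsum : LSeriesSummable (fun n => (cp W n : ℂ)) (σ + t * Complex.I) :=
    (hasSum_cp W (w := σ + t * Complex.I) (by simpa using hσ)).LSeriesSummable
  rw [LSeries, Complex.re_tsum hsum]
  have hinj : Function.Injective fun p : Nat.Primes => (p : ℕ) := Nat.Primes.coe_nat_injective
  rw [← hinj.tsum_eq]
  · refine tsum_congr fun p => ?_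
    rw [LSeries.term_of_ne_zero p.prop.ne_zero, div_eq_mul_inv, ← Complex.cpow_neg,
      Complex.re_ofReal_mul, cpow_re p.prop.ne_zero]
    ring
  · intro n hn
    by_contra hcon
    apply hn
    have hnp : ¬ n.Prime := fun h => hcon ⟨⟨n, h⟩, rfl⟩
    change (LSeries.term (fun n => (cp W n : ℂ)) (σ + t * Complex.I) n).re = 0
    rw [LSeries.term_def, cp_eq_zero W (fun h => hnp h.1)]
    simp

lemma sum_rr_le {σ : ℝ} (hσ : 1 < σ) :
    (Summable fun p : Nat.Primes => (p : ℝ) ^ (-σ) * rr K p) ∧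
      ∑' p : Nat.Primes, (p : ℝ) ^ (-σ) * rr K p ≤ PS K σ := by
  have h := (summable_wp (K := K) hσ).hasSum.tsum_fiberwise nm
  have e : ∀ n : ℕ, ∑' v : (nm (K := K)) ⁻¹' {n}, wp σ (v : HeightOneSpectrum (𝓞 K)) =
      (n : ℝ) ^ (-σ) * rr K n := by
    intro n
    have := (finite_fiber (K := K) n).to_subtype
    have := Fintype.ofFinite ((nm (K := K)) ⁻¹' {n})
    have h3 : ∀ v : (nm (K := K)) ⁻¹' {n}, wp σ (v : HeightOneSpectrum (𝓞 K)) =
        (n : ℝ) ^ (-σ) := by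
      rintro ⟨v, hv⟩
      have hv' : nm v = n := hv
      rw [wp, hv']
    simp_rw [h3]
    rw [tsum_fintype, Finset.sum_const, nsmul_eq_mul, Finset.card_univ,
      ← Nat.card_eq_fintype_card, rr, mul_comm]
  simp_rw [e] at h
  have hinj : Function.Injective fun p : Nat.Primes => (p : ℕ) := Nat.Primes.coe_nat_injective
  have hs : Summable fun p : Nat.Primes => (p : ℝ) ^ (-σ) * rr K p :=
    h.summable.comp_injective hinj
  refine ⟨hs, ?_⟩
  rw [PS, ← h.tsum_eq]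
  exact hs.tsum_le_tsum_of_inj (fun p : Nat.Primes => (p : ℕ)) hinj
    (fun n _ => by positivity) (fun p => le_rfl) h.summable

/-- The bound for the remainder. -/
noncomputable def RB (K : Type*) [Field K] [NumberField K] : ℝ :=
  ∑' v : HeightOneSpectrum (𝓞 K), 150 / (pr v : ℝ) ^ 2

lemma RB_nonneg : 0 ≤ RB K := tsum_nonneg fun v => by positivity

lemma log_norm_LSeries {δ : ℝ} (hδ : 0 < δ) (t : ℝ) :
    |Real.log ‖W.LSeries ((3 / 2 + δ : ℝ) + t * Complex.I)‖ -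
      ∑' p : Nat.Primes, (p : ℝ) ^ (-(1 + δ)) * (cp W p * Real.cos (t * Real.log p))| ≤ RB K := by
  set s : ℂ := (3 / 2 + δ : ℝ) + t * Complex.I with hs
  have hre : s.re = 3 / 2 + δ := by simp [hs]
  have h1 : 3 / 2 < s.re := by rw [hre]; linarith
  have h2 : s - 1 / 2 = ((1 + δ : ℝ) : ℂ) + t * Complex.I := by
    rw [hs]; push_cast; ring
  rw [structure_formula W h1, Complex.norm_exp, Real.log_exp, Complex.add_re, h2,
    re_LSeries_cp W (by linarith), add_sub_cancel_left]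
  exact (Complex.abs_re_le_norm _).trans (norm_Rem_le W h1.le)

lemma eventually_lin_le (A B : ℝ) {ε : ℝ} (hε : 0 < ε) :
    ∀ᶠ x : ℝ in atTop, A * x + B ≤ ε * x ^ 2 := by
  filter_upwards [eventually_ge_atTop (max 1 ((|A| + |B|) / ε))] with x hx
  have h1 : 1 ≤ x := (le_max_left _ _).trans hx
  have h2 : (|A| + |B|) / ε ≤ x := (le_max_right _ _).trans hx
  rw [div_le_iff₀ hε] at h2
  have h3 := le_abs_self A
  have h4 := le_abs_self B
  have h5 : A * x ≤ |A| * x := mul_le_mul_of_nonneg_right h3 (by linarith)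
  have h6 : B ≤ |B| * x := h4.trans (le_mul_of_one_le_right (abs_nonneg _) h1)
  nlinarith [mul_le_mul_of_nonneg_right h2 (by linarith : (0 : ℝ) ≤ x)]

lemma tendsto_log_inv : Tendsto (fun δ : ℝ => Real.log (1 / δ)) (𝓝[>] 0) atTop := by
  have h : Tendsto (fun δ : ℝ => 1 / δ) (𝓝[>] 0) atTop := by
    simpa using tendsto_inv_nhdsGT_zero (𝕜 := ℝ)
  exact Real.tendsto_log_atTop.comp h

lemma tendsto_one_add : Tendsto (fun δ : ℝ => 1 + δ) (𝓝[>] 0) (𝓝[>] 1) := by
  refine tendsto_nhdsWithin_iff.mpr ⟨?_, ?_⟩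
  · have h : Tendsto (fun δ : ℝ => 1 + δ) (𝓝 0) (𝓝 (1 + 0)) := tendsto_id.const_add 1
    rw [add_zero] at h
    exact h.mono_left nhdsWithin_le_nhds
  · filter_upwards [self_mem_nhdsWithin] with δ hδ
    have : (0 : ℝ) < δ := hδ
    exact (by linarith : (1 : ℝ) < 1 + δ)

/-- The square sums. -/
lemma sq_sum_le {δ : ℝ} (hδ : 0 < δ) :
    ∑' p : Nat.Primes, (p : ℝ) ^ (-(1 + δ)) * cp W p ^ 2 ≤
      4 * Module.finrank ℚ K * PS K (1 + δ) := by
  obtain ⟨h1, h2⟩ := sum_rr_le (K := K) (σ := 1 + δ) (by linarith)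
  have h3 : ∀ p : Nat.Primes, (p : ℝ) ^ (-(1 + δ)) * cp W p ^ 2 ≤
      4 * Module.finrank ℚ K * ((p : ℝ) ^ (-(1 + δ)) * rr K p) := by
    intro p
    have h4 := abs_cp_le W (p : ℕ)
    have h5 : (rr K (p : ℕ) : ℝ) ≤ Module.finrank ℚ K := by exact_mod_cast rr_le p.prop
    have h6 : cp W p ^ 2 ≤ 4 * (rr K p : ℝ) ^ 2 := by
      rw [← sq_abs]
      calc |cp W p| ^ 2 ≤ (2 * (rr K p : ℝ)) ^ 2 := pow_le_pow_left₀ (abs_nonneg _) h4 2
        _ = _ := by ring
    have h7 : (rr K p : ℝ) ^ 2 ≤ Module.finrank ℚ K * (rr K p : ℝ) := by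
      rw [sq]; exact mul_le_mul_of_nonneg_right h5 (Nat.cast_nonneg _)
    have h8 : (0 : ℝ) ≤ (p : ℝ) ^ (-(1 + δ)) := by positivity
    nlinarith [mul_le_mul_of_nonneg_left (h6.trans (mul_le_mul_of_nonneg_left h7 (by norm_num : (0:ℝ) ≤ 4))) h8]
  have h9 := h1.mul_left (4 * (Module.finrank ℚ K : ℝ))
  have h10 : Summable fun p : Nat.Primes => (p : ℝ) ^ (-(1 + δ)) * cp W p ^ 2 :=
    Summable.of_nonneg_of_le (fun p => by positivity) h3 h9
  calc ∑' p : Nat.Primes, (p : ℝ) ^ (-(1 + δ)) * cp W p ^ 2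
      ≤ ∑' p : Nat.Primes, 4 * Module.finrank ℚ K * ((p : ℝ) ^ (-(1 + δ)) * rr K p) :=
        h10.tsum_le_tsum h3 h9
    _ = 4 * Module.finrank ℚ K * ∑' p : Nat.Primes, (p : ℝ) ^ (-(1 + δ)) * rr K p := tsum_mul_left
    _ ≤ _ := by gcongr

theorem line_bessel (T : Finset ℝ) {ε : ℝ} (hε : 0 < ε) : ∀ᶠ σ : ℝ in 𝓝[>] (3 / 2),
    ∑ t ∈ T, Real.log ‖W.LSeries (σ + t * Complex.I)‖ ^ 2 ≤
      (4 * Module.finrank ℚ K + ε) * Real.log (σ - 3 / 2) ^ 2 := by
  classical
  set n : ℝ := (Module.finrank ℚ K : ℝ) with hn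
  have hn1 : 1 ≤ n := by
    rw [hn]; exact_mod_cast Module.finrank_pos
  obtain ⟨C₂, hC₂0, hC₂⟩ := PS_bound K
  obtain ⟨C₁, hC₁0, hC₁⟩ := PC_zero
  -- the off diagonal bound
  have hoff : ∃ C : ℝ, 0 ≤ C ∧ ∀ᶠ σ : ℝ in 𝓝[>] 1, ∀ t ∈ T, ∀ t' ∈ T, t ≠ t' →
      |PC σ (t - t')| ≤ C := by
    have h1 : ∀ x ∈ T ×ˢ T, ∃ C : ℝ, 0 ≤ C ∧ (x.1 ≠ x.2 → ∀ᶠ σ : ℝ in 𝓝[>] 1,
        |PC σ (x.1 - x.2)| ≤ C) := by
      intro x _
      by_cases h : x.1 = x.2
      · exact ⟨0, le_rfl, fun h' => absurd h h'⟩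
      · obtain ⟨C, hC0, hC⟩ := PC_bound (sub_ne_zero.mpr h)
        exact ⟨C, hC0, fun _ => hC⟩
    choose! Cf hCf using h1
    refine ⟨∑ x ∈ T ×ˢ T, Cf x, Finset.sum_nonneg fun x hx => (hCf x hx).1, ?_⟩
    have h2 : ∀ᶠ σ : ℝ in 𝓝[>] 1, ∀ x ∈ T ×ˢ T, x.1 ≠ x.2 → |PC σ (x.1 - x.2)| ≤ Cf x := by
      rw [Filter.eventually_all_finset]
      intro x hx
      by_cases h : x.1 = x.2
      · exact Eventually.of_forall fun σ h' => absurd h h'
      · exact ((hCf x hx).2 h).mono fun σ h' _ => h'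
    filter_upwards [h2] with σ hσ t ht t' ht' hne
    have hx : (t, t') ∈ T ×ˢ T := Finset.mem_product.mpr ⟨ht, ht'⟩
    exact (hσ (t, t') hx hne).trans
      (Finset.single_le_sum (f := Cf) (fun x hx => (hCf x hx).1) hx)
  obtain ⟨C₃, hC₃0, hC₃⟩ := hoff
  set η : ℝ := ε / (8 * n) with hη
  have hη0 : 0 < η := by positivity
  set R : ℝ := RB K with hR
  set D : ℝ := C₁ + C₃ * T.card with hD
  have hlin := eventually_lin_le ((1 + η) * (4 * n) * (D + C₂))
    ((1 + η) * (4 * n) * (D * C₂) + (1 + 1 / η) * T.card * R ^ 2) (half_pos hε)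
  have hshift : Tendsto (fun σ : ℝ => σ - 3 / 2) (𝓝[>] (3 / 2)) (𝓝[>] 0) := by
    refine tendsto_nhdsWithin_iff.mpr ⟨?_, ?_⟩
    · have h : Tendsto (fun σ : ℝ => σ - 3 / 2) (𝓝 (3 / 2)) (𝓝 (3 / 2 - 3 / 2)) :=
        tendsto_id.sub_const _
      rw [sub_self] at h
      exact h.mono_left nhdsWithin_le_nhds
    · filter_upwards [self_mem_nhdsWithin] with σ hσ
      have : (3 / 2 : ℝ) < σ := hσ
      exact (by linarith : (0 : ℝ) < σ - 3 / 2)
  have hmain : ∀ᶠ δ : ℝ in 𝓝[>] 0, ∑ t ∈ T,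
      Real.log ‖W.LSeries ((3 / 2 + δ : ℝ) + t * Complex.I)‖ ^ 2 ≤
      (4 * n + ε) * Real.log δ ^ 2 := by
    filter_upwards [self_mem_nhdsWithin, tendsto_one_add.eventually hC₁,
      tendsto_one_add.eventually hC₂, tendsto_one_add.eventually hC₃,
      tendsto_log_inv.eventually hlin,
      tendsto_log_inv.eventually (eventually_gt_atTop 1)] with δ hδ h1 h2 h3 h4 h5
    have hδ0 : 0 < δ := hδ
    rw [add_sub_cancel_left] at h1 h2
    set Lg : ℝ := Real.log (1 / δ) with hLg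
    have hLgd : Real.log δ ^ 2 = Lg ^ 2 := by
      rw [hLg, one_div, Real.log_inv, neg_sq]
    rw [hLgd]
    set X : ℝ → ℝ := fun t =>
      ∑' p : Nat.Primes, (p : ℝ) ^ (-(1 + δ)) * (cp W p * Real.cos (t * Real.log p)) with hX
    have hbes := bessel (ι := Nat.Primes) (fun p => (p : ℝ) ^ (-(1 + δ))) (fun p => cp W p)
      (fun (t : ℝ) p => Real.cos (t * Real.log p)) (fun (t : ℝ) p => Real.sin (t * Real.log p)) T
      (P := Lg + C₁) (C := C₃) (B := 2 * n) (summable_primes (by linarith))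
      (fun p => by positivity)
      (fun p => (abs_cp_le W _).trans (by
        have : (rr K (p : ℕ) : ℝ) ≤ n := by rw [hn]; exact_mod_cast rr_le p.prop
        linarith))
      (fun t p => Real.abs_cos_le_one _) (fun t p => Real.abs_sin_le_one _)
      (fun t _ => by
        have e : ∑' p : Nat.Primes, (p : ℝ) ^ (-(1 + δ)) *
            (Real.cos (t * Real.log p) * Real.cos (t * Real.log p) +
              Real.sin (t * Real.log p) * Real.sin (t * Real.log p)) = PC (1 + δ) 0 := by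
          rw [PC]
          refine tsum_congr fun p => ?_
          rw [← Real.cos_sub, sub_self, zero_mul]
        rw [e]
        have := (abs_le.mp h1).2
        linarith)
      (fun t ht t' ht' hne => by
        have e : ∑' p : Nat.Primes, (p : ℝ) ^ (-(1 + δ)) *
            (Real.cos (t * Real.log p) * Real.cos (t' * Real.log p) +
              Real.sin (t * Real.log p) * Real.sin (t' * Real.log p)) = PC (1 + δ) (t - t') := by
          rw [PC]
          refine tsum_congr fun p => ?_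
          rw [← Real.cos_sub, sub_mul]
        rw [e]
        exact h3 t ht t' ht' hne)
      (by linarith) hC₃0
    have hsq := sq_sum_le W hδ0
    have hPS := (abs_le.mp h2).2
    have hXsum : ∑ t ∈ T, X t ^ 2 ≤ (Lg + D) * (4 * n * (Lg + C₂)) := by
      refine hbes.trans ?_
      have hpos : 0 ≤ Lg + C₁ + C₃ * T.card := by positivity
      calc (Lg + C₁ + C₃ * T.card) * ∑' p : Nat.Primes, (p : ℝ) ^ (-(1 + δ)) * cp W p ^ 2
          ≤ (Lg + C₁ + C₃ * T.card) * (4 * n * (Lg + C₂)) := by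
            refine mul_le_mul_of_nonneg_left (hsq.trans ?_) hpos
            rw [← hn]
            refine mul_le_mul_of_nonneg_left ?_ (by positivity)
            linarith
        _ = _ := by rw [hD]; ring
    have hterm : ∀ t ∈ T, Real.log ‖W.LSeries ((3 / 2 + δ : ℝ) + t * Complex.I)‖ ^ 2 ≤
        (1 + η) * X t ^ 2 + (1 + 1 / η) * R ^ 2 := by
      intro t _
      have h6 := log_norm_LSeries W hδ0 t
      set Y : ℝ := Real.log ‖W.LSeries ((3 / 2 + δ : ℝ) + t * Complex.I)‖ with hY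
      have h7 : (Y - X t) ^ 2 ≤ R ^ 2 := by
        rw [← sq_abs]
        exact pow_le_pow_left₀ (abs_nonneg _) h6 2
      have h8 : Y ^ 2 ≤ (1 + η) * X t ^ 2 + (1 + 1 / η) * (Y - X t) ^ 2 := by
        have h9 : (1 + η) * X t ^ 2 + (1 + 1 / η) * (Y - X t) ^ 2 - Y ^ 2 =
            η * (X t - 1 / η * (Y - X t)) ^ 2 := by
          field_simp
          ring
        have h10 : 0 ≤ η * (X t - 1 / η * (Y - X t)) ^ 2 := by positivity
        linarith
      have h11 : 0 ≤ 1 + 1 / η := by positivity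
      nlinarith [mul_le_mul_of_nonneg_left h7 h11]
    calc ∑ t ∈ T, Real.log ‖W.LSeries ((3 / 2 + δ : ℝ) + t * Complex.I)‖ ^ 2
        ≤ ∑ t ∈ T, ((1 + η) * X t ^ 2 + (1 + 1 / η) * R ^ 2) := Finset.sum_le_sum hterm
      _ = (1 + η) * ∑ t ∈ T, X t ^ 2 + (1 + 1 / η) * T.card * R ^ 2 := by
          rw [Finset.sum_add_distrib, ← Finset.mul_sum, Finset.sum_const, nsmul_eq_mul]
          ring
      _ ≤ (1 + η) * ((Lg + D) * (4 * n * (Lg + C₂))) + (1 + 1 / η) * T.card * R ^ 2 := by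
          gcongr
      _ = (1 + η) * (4 * n) * Lg ^ 2 + ((1 + η) * (4 * n) * (D + C₂) * Lg +
            ((1 + η) * (4 * n) * (D * C₂) + (1 + 1 / η) * T.card * R ^ 2)) := by ring
      _ ≤ (1 + η) * (4 * n) * Lg ^ 2 + ε / 2 * Lg ^ 2 := by
          have := h4
          linarith
      _ = (4 * n + ε) * Lg ^ 2 := by
          rw [hη]
          field_simp
          ring
  have h := hshift.eventually hmain
  refine h.mono fun σ hσ => ?_
  have e : ((3 / 2 + (σ - 3 / 2) : ℝ) : ℂ) = σ := by norm_num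
  simp_rw [e] at hσ
  exact hσ

end Pool.Agent.Lib.MP_bf61d2_nt
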