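import Pool.Agent.Lib.MP_bf61d2_nt.Unimod

set_option autoImplicit false

/-!
Degree bookkeeping for the parallelogram law.
-/

namespace Pool.Agent.Lib.MP_bf61d2_nt

open WeierstrassCurve Polynomial

variable {F : Type*} [Field F]

lemma natDegree_unit_mul {x p : F[X]} (hx : IsUnit x) : (x * p).natDegree = p.natDegree := by
  by_cases hp : p = 0
  · simp [hp]
  · rw [natDegree_mul hx.ne_zero hp, natDegree_eq_zero_of_isUnit hx, zero_add]

lemma deg_step {f g f₁ g₁ f₂ g₂ : F[X]} {a₂ a₄ a₆ : F} {d : ℕ} (hd : f.natDegree = d)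
    (hg : g.degree < f.degree) {x : F[X]} (hx : IsUnit x)
    (e0 : T0 (C a₂) (C a₄) (C a₆) f g X 1 = x * (f₁ * f₂))
    (e1 : T1 (C a₂) (C a₄) (C a₆) f g X 1 = x * (f₁ * g₂ + f₂ * g₁))
    (e2 : T2 f g X 1 = x * (g₁ * g₂)) :
    g₁.degree < f₁.degree ∧ g₂.degree < f₂.degree ∧ f₁.natDegree + f₂.natDegree = 2 * d + 2 := by
  have hf0 : f ≠ 0 := by
    rintro rfl; simp at hg
  have hgd : g.natDegree ≤ d := by
    rw [← hd]; exact natDegree_le_natDegree hg.le
  have hXg : (X * g).natDegree ≤ d := by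
    by_cases hg0 : g = 0
    · simp [hg0]
    · have h1 : g.natDegree < f.natDegree := natDegree_lt_natDegree hg0 hg
      rw [natDegree_X_mul hg0]; omega
  have hfX : (f * X).natDegree ≤ d + 1 := by
    rw [natDegree_mul_X hf0, hd]
  have hs : (f * 1 + X * g).natDegree ≤ d :=
    natDegree_add_le_of_degree_le (by rw [mul_one, hd]) hXg
  have hg1 : (g * 1).natDegree ≤ d := by rwa [mul_one]
  have hc : ∀ a : F, (C a : F[X]).natDegree ≤ 0 := fun a => by simp
  have hn : ∀ (n : ℕ) [n.AtLeastTwo] (a : F), ((OfNat.ofNat n : F[X]) * C a).natDegree ≤ 0 := by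
    intro n _ a
    refine (natDegree_mul_le).trans ?_
    rw [natDegree_ofNat, natDegree_C]
  have hm : ∀ {p q : F[X]} {m n k : ℕ}, p.natDegree ≤ m → q.natDegree ≤ n → m + n ≤ k →
      (p * q).natDegree ≤ k := fun hp hq hk => (natDegree_mul_le_of_le hp hq).trans hk
  have ha : ∀ {p q : F[X]} {k : ℕ}, p.natDegree ≤ k → q.natDegree ≤ k →
      (p + q).natDegree ≤ k := fun hp hq => natDegree_add_le_of_degree_le hp hq
  -- the first form
  have hR : (2 * C a₄ * (f * X) * (g * 1) + 4 * C a₆ * (f * 1 + X * g) * (g * 1) +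
      (4 * C a₂ * C a₆ - C a₄ ^ 2) * (g * 1) ^ 2).natDegree ≤ 2 * d + 1 := by
    refine ha (ha ?_ ?_) ?_
    · exact hm (hm (hn 2 a₄) hfX le_rfl) hg1 (by omega)
    · exact hm (hm (hn 4 a₆) hs le_rfl) hg1 (by omega)
    · have h1 : (4 * C a₂ * C a₆ - C a₄ ^ 2 : F[X]) = C (4 * a₂ * a₆ - a₄ ^ 2) := by
        simp only [map_sub, map_mul, map_pow, map_ofNat]
      rw [h1]
      exact hm (hc _) (natDegree_pow_le_of_le 2 hg1) (by omega)
  have hT0 : (T0 (C a₂) (C a₄) (C a₆) f g X 1).natDegree = 2 * d + 2 := by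
    have h1 : T0 (C a₂) (C a₄) (C a₆) f g X 1 = (f * X) ^ 2 - (2 * C a₄ * (f * X) * (g * 1) +
        4 * C a₆ * (f * 1 + X * g) * (g * 1) +
        (4 * C a₂ * C a₆ - C a₄ ^ 2) * (g * 1) ^ 2) := by
      rw [T0]; ring
    have h2 : ((f * X) ^ 2).natDegree = 2 * d + 2 := by
      rw [natDegree_pow, natDegree_mul_X hf0, hd]; ring
    rw [h1, natDegree_sub_eq_left_of_natDegree_lt (by omega), h2]
  have hT1 : (T1 (C a₂) (C a₄) (C a₆) f g X 1).natDegree ≤ 2 * d + 1 := by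
    rw [T1]
    refine ha (ha (ha ?_ ?_) ?_) ?_
    · have h2 : ((2 : F[X])).natDegree ≤ 0 := by rw [natDegree_ofNat]
      exact hm (hm h2 hfX le_rfl) hs (by omega)
    · exact hm (hm (hn 4 a₂) hfX le_rfl) hg1 (by omega)
    · exact hm (hm (hn 2 a₄) hs le_rfl) hg1 (by omega)
    · exact hm (hn 4 a₆) (natDegree_pow_le_of_le 2 hg1) (by omega)
  have hT2 : (T2 f g X 1).natDegree ≤ 2 * d := by
    rw [T2]
    refine (natDegree_pow_le_of_le 2 (?_ : _ ≤ d)).trans (by omega)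
    exact natDegree_sub_le_of_le (by rw [mul_one, hd]) hXg |>.trans (by simp)
  rw [e0, natDegree_unit_mul hx] at hT0
  rw [e1, natDegree_unit_mul hx] at hT1
  rw [e2, natDegree_unit_mul hx] at hT2
  have hne : f₁ * f₂ ≠ 0 := by
    intro h; rw [h] at hT0; simp at hT0
  have hf1 : f₁ ≠ 0 := left_ne_zero_of_mul hne
  have hf2 : f₂ ≠ 0 := right_ne_zero_of_mul hne
  rw [natDegree_mul hf1 hf2] at hT0
  -- symmetric statement
  have key : ∀ {f₁ g₁ f₂ g₂ : F[X]}, f₁ ≠ 0 → f₂ ≠ 0 → f₁.natDegree + f₂.natDegree = 2 * d + 2 →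
      (f₁ * g₂ + f₂ * g₁).natDegree ≤ 2 * d + 1 → (g₁ * g₂).natDegree ≤ 2 * d →
      g₁.degree < f₁.degree := by
    intro f₁ g₁ f₂ g₂ hf1 hf2 hsum h1 h2
    by_contra hcon
    push Not at hcon
    have hg1 : g₁ ≠ 0 := by
      rintro rfl
      rw [degree_zero, le_bot_iff, degree_eq_bot] at hcon
      exact hf1 hcon
    have h3 : f₁.natDegree ≤ g₁.natDegree := natDegree_le_natDegree hcon
    have h4 : (f₂ * g₁).natDegree = f₂.natDegree + g₁.natDegree := natDegree_mul hf2 hg1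
    by_cases hg2 : g₂ = 0
    · rw [hg2, mul_zero, zero_add, h4] at h1
      omega
    · rw [natDegree_mul hg1 hg2] at h2
      have h5 : (f₁ * g₂).natDegree = f₁.natDegree + g₂.natDegree := natDegree_mul hf1 hg2
      have h6 : (f₁ * g₂ + f₂ * g₁).natDegree = (f₂ * g₁).natDegree :=
        natDegree_add_eq_right_of_natDegree_lt (by omega)
      omega
  refine ⟨key hf1 hf2 hT0 hT1 hT2, ?_, hT0⟩
  refine key (g₂ := g₁) hf2 hf1 (by omega) ?_ ?_
  · rw [add_comm]; exact hT1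
  · rw [mul_comm]; exact hT2

end Pool.Agent.Lib.MP_bf61d2_nt
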