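import Pool.Agent.Lib.MP_bf61d2_nt.TwistLocal
import Pool.Agent.Lib.MP_bf61d2_nt.PrimeSum

set_option autoImplicit false

/-!
Sums of a quadratic character over the places of a number field.
-/

namespace Pool.Agent.Lib.MP_bf61d2_nt

open NumberField IsDedekindDomain Filter Topology

section Ext

variable {K L : Type*} [Field K] [NumberField K] [Field L] [NumberField L] [Algebra K L]

/-- The place below. -/
noncomputable def dn (w : HeightOneSpectrum (𝓞 L)) : HeightOneSpectrum (𝓞 K) where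
  asIdeal := w.asIdeal.under (𝓞 K)
  isPrime := by
    have := w.isPrime
    infer_instance
  ne_bot := Ideal.under_ne_bot (𝓞 K) w.ne_bot

omit [NumberField K] [NumberField L] in
lemma mem_dn (w : HeightOneSpectrum (𝓞 L)) (x : 𝓞 K) :
    x ∈ (dn (K := K) w).asIdeal ↔ algebraMap (𝓞 K) (𝓞 L) x ∈ w.asIdeal := Iff.rfl

instance liesOver_dn (w : HeightOneSpectrum (𝓞 L)) :
    w.asIdeal.LiesOver (dn (K := K) w).asIdeal := ⟨rfl⟩

lemma nm_dn (w : HeightOneSpectrum (𝓞 L)) :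
    ∃ f : ℕ, 1 ≤ f ∧ nm w = nm (dn (K := K) w) ^ f := by
  have h := Ideal.absNorm_eq_pow_inertiaDeg'_of_liesOver w.asIdeal (dn (K := K) w).asIdeal
    (dn (K := K) w).isPrime (dn (K := K) w).ne_bot
  refine ⟨_, ?_, h⟩
  by_contra hcon
  have h0 : (dn (K := K) w).asIdeal.inertiaDeg' w.asIdeal = 0 := by omega
  rw [h0, pow_zero] at h
  have := one_lt_nm w
  unfold nm at this
  omega

lemma nm_dn_le (w : HeightOneSpectrum (𝓞 L)) : nm (dn (K := K) w) ≤ nm w := by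
  obtain ⟨f, hf, h⟩ := nm_dn (K := K) w
  rw [h]
  exact Nat.le_self_pow (by omega) _

lemma sq_nm_dn_le (w : HeightOneSpectrum (𝓞 L)) (h : nm w ≠ nm (dn (K := K) w)) :
    nm (dn (K := K) w) ^ 2 ≤ nm w := by
  obtain ⟨f, hf, hv⟩ := nm_dn (K := K) w
  have hf2 : 2 ≤ f := by
    rcases Nat.lt_or_ge f 2 with h2 | h2
    · have : f = 1 := by omega
      rw [this, pow_one] at hv
      exact absurd hv h
    · exact h2
  rw [hv]
  exact Nat.pow_le_pow_right (by have := one_lt_nm (dn (K := K) w); omega) hf2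

/-- The product of the norms of the places above. -/
lemma prod_nm_dvd (v : HeightOneSpectrum (𝓞 K)) (S : Finset (HeightOneSpectrum (𝓞 L)))
    (hS : ∀ w ∈ S, dn (K := K) w = v) : ∏ w ∈ S, nm w ∣ nm v ^ Module.finrank (𝓞 K) (𝓞 L) := by
  classical
  have hdvd : ∏ w ∈ S, w.asIdeal ∣ v.asIdeal.map (algebraMap (𝓞 K) (𝓞 L)) := by
    refine Finset.prod_dvd_of_coprime ?_ ?_
    · intro w _ w' _ hww
      rw [Function.onFun, Ideal.isCoprime_iff_sup_eq]
      have h1 : w.asIdeal.IsMaximal := w.isMaximal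
      have h2 : w'.asIdeal.IsMaximal := w'.isMaximal
      exact Ideal.IsMaximal.coprime_of_ne h1 h2 fun h => hww (HeightOneSpectrum.ext h)
    · intro w hw
      rw [Ideal.dvd_iff_le, Ideal.map_le_iff_le_comap, ← hS w hw]
      exact le_rfl
  have h2 := (Ideal.absNorm : Ideal (𝓞 L) →*₀ ℕ).toMonoidHom.map_dvd hdvd
  have h3 : Ideal.absNorm (∏ w ∈ S, w.asIdeal) = ∏ w ∈ S, nm w := by
    rw [map_prod]; rfl
  have h4 : Ideal.absNorm (v.asIdeal.map (algebraMap (𝓞 K) (𝓞 L))) =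
      nm v ^ Module.finrank (𝓞 K) (𝓞 L) := Ideal.absNorm_algebraMap (𝓞 K) (𝓞 L) v.asIdeal
  rw [← h3, ← h4]
  exact h2

/-- A place of residue degree one above `v` makes the square root rational. -/
lemma chi_of_degree_one {e : 𝓞 K} {θ : 𝓞 L} (hθ : θ ^ 2 = algebraMap (𝓞 K) (𝓞 L) e)
    (w : HeightOneSpectrum (𝓞 L)) (he : e ∉ (dn (K := K) w).asIdeal)
    (hw : nm w = nm (dn (K := K) w)) : chi (dn (K := K) w) e = 1 := by
  rw [chi_eq_one_iff _ he]
  set v := dn (K := K) w with hv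
  -- the residue map is surjective
  set f : 𝓞 K ⧸ v.asIdeal →+* 𝓞 L ⧸ w.asIdeal := algebraMap (𝓞 K ⧸ v.asIdeal) (𝓞 L ⧸ w.asIdeal)
    with hf
  have hmax : v.asIdeal.IsMaximal := v.isMaximal
  have hmaxw : w.asIdeal.IsMaximal := w.isMaximal
  have hinj : Function.Injective f := by
    let := Ideal.Quotient.field v.asIdeal
    exact RingHom.injective f
  have hfin : Finite (𝓞 L ⧸ w.asIdeal) := by
    apply Nat.finite_of_card_ne_zero
    have h1 : Nat.card (𝓞 L ⧸ w.asIdeal) = nm w := by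
      rw [nm, Ideal.absNorm_apply, Submodule.cardQuot_apply]
    rw [h1]
    have := one_lt_nm w
    omega
  have hsurj : Function.Surjective f := by
    have h1 : Nat.card (𝓞 K ⧸ v.asIdeal) = Nat.card (𝓞 L ⧸ w.asIdeal) := by
      have h2 : Nat.card (𝓞 L ⧸ w.asIdeal) = nm w := by
        rw [nm, Ideal.absNorm_apply, Submodule.cardQuot_apply]
      have h3 : Nat.card (𝓞 K ⧸ v.asIdeal) = nm v := by
        rw [nm, Ideal.absNorm_apply, Submodule.cardQuot_apply]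
      rw [h2, h3, hw]
    exact (Function.Injective.bijective_of_nat_card_le hinj h1.ge).2
  obtain ⟨y, hy⟩ := hsurj (Ideal.Quotient.mk w.asIdeal θ)
  obtain ⟨x, rfl⟩ := Ideal.Quotient.mk_surjective y
  have hx : algebraMap (𝓞 K) (𝓞 L) x - θ ∈ w.asIdeal := by
    rw [← Ideal.Quotient.eq]
    exact hy
  refine ⟨x, ?_⟩
  rw [mem_dn, map_sub, map_pow, ← hθ]
  have e1 : θ ^ 2 - algebraMap (𝓞 K) (𝓞 L) x ^ 2 =
      -(θ + algebraMap (𝓞 K) (𝓞 L) x) * (algebraMap (𝓞 K) (𝓞 L) x - θ) := by ring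
  rw [e1]
  exact Ideal.mul_mem_left _ _ hx

/-- Two places above a place where the element is a square. -/
lemma exists_two_above [IsGalois K L] [FiniteDimensional K L] {e : 𝓞 K} {θ : 𝓞 L}
    (hθ : θ ^ 2 = algebraMap (𝓞 K) (𝓞 L) e)
    (hθK : (θ : L) ∉ (⊥ : IntermediateField K L)) (v : HeightOneSpectrum (𝓞 K))
    (h2 : (2 : 𝓞 K) ∉ v.asIdeal) (he : e ∉ v.asIdeal) (hchi : chi v e = 1) :
    ∃ w₁ w₂ : HeightOneSpectrum (𝓞 L), w₁ ≠ w₂ ∧ dn (K := K) w₁ = v ∧ dn (K := K) w₂ = v := by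
  obtain ⟨x, hx⟩ := (chi_eq_one_iff v he).mp hchi
  have hvprime : v.asIdeal.IsPrime := v.isPrime
  have hvmax : v.asIdeal.IsMaximal := v.isMaximal
  -- the Galois automorphism
  obtain ⟨σ, hσ⟩ : ∃ σ : Gal(L/K), σ (θ : L) ≠ (θ : L) := by
    by_contra hcon
    push Not at hcon
    exact hθK ((IsGalois.mem_bot_iff_fixed _).mpr hcon)
  have hsq : (θ : L) ^ 2 = algebraMap K L (e : K) := by
    have h1 := congrArg (algebraMap (𝓞 L) L) hθ
    rw [map_pow] at h1
    exact h1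
  have hσθ : σ (θ : L) = -(θ : L) := by
    have h1 : (σ (θ : L)) ^ 2 = (θ : L) ^ 2 := by
      rw [← map_pow, hsq, AlgEquiv.commutes]
    rcases sq_eq_sq_iff_eq_or_eq_neg.mp h1 with h3 | h3
    · exact absurd h3 hσ
    · exact h3
  set τ : 𝓞 L ≃ₐ[𝓞 K] 𝓞 L := galRestrict (𝓞 K) K L (𝓞 L) σ with hτ
  have hτθ : τ θ = -θ := by
    apply RingOfIntegers.coe_injective
    have h1 : algebraMap (𝓞 L) L (τ θ) = σ (algebraMap (𝓞 L) L θ) :=
      algebraMap_galRestrict_apply (𝓞 K) σ θ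
    have h3 : algebraMap (𝓞 L) L (τ θ) = algebraMap (𝓞 L) L (-θ) := by
      rw [h1, map_neg]
      exact hσθ
    exact h3
  -- a place above
  obtain ⟨P, hPmax, hPover⟩ : ∃ P : Ideal (𝓞 L), P.IsMaximal ∧
      P.comap (algebraMap (𝓞 K) (𝓞 L)) = v.asIdeal := by
    refine Ideal.exists_ideal_over_maximal_of_isIntegral v.asIdeal ?_
    rw [(RingHom.injective_iff_ker_eq_bot _).mp (FaithfulSMul.algebraMap_injective (𝓞 K) (𝓞 L))]
    exact bot_le
  have hPbot : P ≠ ⊥ := by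
    rintro rfl
    apply v.ne_bot
    rw [← hPover, ← RingHom.ker_eq_comap_bot]
    exact (RingHom.injective_iff_ker_eq_bot _).mp (FaithfulSMul.algebraMap_injective (𝓞 K) (𝓞 L))
  set w₁ : HeightOneSpectrum (𝓞 L) := ⟨P, hPmax.isPrime, hPbot⟩ with hw₁
  have hw₁v : dn (K := K) w₁ = v := HeightOneSpectrum.ext hPover
  set w₂ : HeightOneSpectrum (𝓞 L) := ⟨P.comap (τ : 𝓞 L →+* 𝓞 L), by
      have := hPmax.isPrime
      infer_instance, by
      intro h
      obtain ⟨y, hy, hy0⟩ := Submodule.exists_mem_ne_zero_of_ne_bot hPbot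
      have h1 : τ.symm y ∈ P.comap (τ : 𝓞 L →+* 𝓞 L) := by
        rw [Ideal.mem_comap]
        change τ (τ.symm y) ∈ P
        rw [AlgEquiv.apply_symm_apply]
        exact hy
      rw [h, Ideal.mem_bot] at h1
      exact hy0 (by simpa using h1)⟩ with hw₂
  have hmem₂ : ∀ y : 𝓞 L, y ∈ w₂.asIdeal ↔ τ y ∈ w₁.asIdeal := fun y => Iff.rfl
  have hw₂v : dn (K := K) w₂ = v := by
    rw [← hw₁v]
    apply HeightOneSpectrum.ext
    ext y
    rw [mem_dn, mem_dn, hmem₂, AlgEquiv.commutes]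
  refine ⟨w₁, w₂, ?_, hw₁v, hw₂v⟩
  intro heq
  have hkey : 2 * x ∉ v.asIdeal := by
    intro h
    rcases hvprime.mem_or_mem h with h | h
    · exact h2 h
    · apply he
      have h3 : e = (e - x ^ 2) + x ^ 2 := by ring
      rw [h3]
      exact Ideal.add_mem _ hx (Ideal.pow_mem_of_mem _ h 2 (by norm_num))
  apply hkey
  rw [← hw₁v, mem_dn]
  set X : 𝓞 L := algebraMap (𝓞 K) (𝓞 L) x with hX
  have hτX : τ X = X := by rw [hX, AlgEquiv.commutes]
  have hprod : (θ - X) * (θ + X) ∈ w₁.asIdeal := by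
    have h3 : (θ - X) * (θ + X) = algebraMap (𝓞 K) (𝓞 L) (e - x ^ 2) := by
      rw [map_sub, map_pow, ← hθ, ← hX]; ring
    rw [h3, ← mem_dn (K := K) w₁, hw₁v]
    exact hx
  have hw₁prime : w₁.asIdeal.IsPrime := w₁.isPrime
  have e2 : algebraMap (𝓞 K) (𝓞 L) (2 * x) = 2 * X := by
    rw [map_mul, map_ofNat, ← hX]
  rw [e2]
  rcases hw₁prime.mem_or_mem hprod with h | h
  · have h3 : θ - X ∈ w₂.asIdeal := heq ▸ h
    rw [hmem₂, map_sub, hτθ, hτX] at h3
    have h4 : 2 * X = -((θ - X) + (-θ - X)) := by ring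
    rw [h4]
    exact (Ideal.neg_mem_iff _).mpr (Ideal.add_mem _ h h3)
  · have h3 : θ + X ∈ w₂.asIdeal := heq ▸ h
    rw [hmem₂, map_add, hτθ, hτX] at h3
    have h4 : 2 * X = (θ + X) + (-θ + X) := by ring
    rw [h4]
    exact Ideal.add_mem _ h h3

/-- The sum over the places above. -/
noncomputable def phi (L : Type*) [Field L] [NumberField L] [Algebra K L] (σ : ℝ)
    (v : HeightOneSpectrum (𝓞 K)) : ℝ :=
  ∑' w : (dn (K := K) (L := L)) ⁻¹' {v}, wp σ (w : HeightOneSpectrum (𝓞 L))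

lemma card_above (hn : Module.finrank (𝓞 K) (𝓞 L) = 2) (v : HeightOneSpectrum (𝓞 K))
    (S : Finset (HeightOneSpectrum (𝓞 L))) (hS : ∀ w ∈ S, dn (K := K) w = v) : S.card ≤ 2 := by
  have h1 := prod_nm_dvd v S hS
  rw [hn] at h1
  have hv := one_lt_nm v
  have h2 : nm v ^ S.card ≤ ∏ w ∈ S, nm w := by
    rw [← Finset.prod_const]
    exact Finset.prod_le_prod' fun w hw => by rw [← hS w hw]; exact nm_dn_le w
  have h3 : nm v ^ S.card ≤ nm v ^ 2 := h2.trans (Nat.le_of_dvd (pow_pos (by omega) _) h1)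
  exact (Nat.pow_le_pow_iff_right hv).mp h3

lemma finite_above (hn : Module.finrank (𝓞 K) (𝓞 L) = 2) (v : HeightOneSpectrum (𝓞 K)) :
    ((dn (K := K) (L := L)) ⁻¹' {v}).Finite := by
  by_contra hcon
  obtain ⟨S, hS, hcard⟩ := (Set.not_finite.mp hcon : Set.Infinite _).exists_subset_card_eq 3
  have := card_above (K := K) hn v S fun w hw => hS hw
  omega

lemma phi_eq (σ : ℝ) (v : HeightOneSpectrum (𝓞 K)) (T : Finset (HeightOneSpectrum (𝓞 L)))
    (hT : ∀ w, w ∈ T ↔ dn (K := K) w = v) : phi L σ v = ∑ w ∈ T, wp σ w := by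
  have hset : ((dn (K := K) (L := L)) ⁻¹' {v} : Set (HeightOneSpectrum (𝓞 L))) =
      (T : Set (HeightOneSpectrum (𝓞 L))) := by
    ext w
    rw [Set.mem_preimage, Set.mem_singleton_iff, Finset.mem_coe, hT]
  rw [phi, hset, Finset.tsum_subtype' _ (fun w => wp σ w)]

lemma exists_fiber (hn : Module.finrank (𝓞 K) (𝓞 L) = 2) (v : HeightOneSpectrum (𝓞 K)) :
    ∃ T : Finset (HeightOneSpectrum (𝓞 L)), (∀ w, w ∈ T ↔ dn (K := K) w = v) ∧ T.card ≤ 2 := by
  refine ⟨(finite_above (L := L) hn v).toFinset, fun w => ?_, ?_⟩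
  · rw [Set.Finite.mem_toFinset]; rfl
  · refine card_above hn v _ fun w hw => ?_
    rw [Set.Finite.mem_toFinset] at hw
    exact hw

lemma phi_nonneg (σ : ℝ) (v : HeightOneSpectrum (𝓞 K)) : 0 ≤ phi L σ v :=
  tsum_nonneg fun _ => (wp_pos σ _).le

lemma phi_le (hn : Module.finrank (𝓞 K) (𝓞 L) = 2) {σ : ℝ} (hσ : 1 ≤ σ)
    (v : HeightOneSpectrum (𝓞 K)) : phi L σ v ≤ 1 := by
  obtain ⟨T, hT, hcard⟩ := exists_fiber (L := L) hn v
  rw [phi_eq σ v T hT]
  calc ∑ w ∈ T, wp σ w ≤ ∑ _w ∈ T, (1 / 2 : ℝ) := Finset.sum_le_sum fun w _ => wp_le_half hσ w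
    _ = T.card * (1 / 2) := by rw [Finset.sum_const, nsmul_eq_mul]
    _ ≤ 2 * (1 / 2) := by
        have : (T.card : ℝ) ≤ 2 := by exact_mod_cast hcard
        gcongr
    _ = 1 := by norm_num

/-- Local comparison. -/
lemma phi_sub_le [IsGalois K L] [FiniteDimensional K L]
    (hn : Module.finrank (𝓞 K) (𝓞 L) = 2) {e : 𝓞 K} {θ : 𝓞 L}
    (hθ : θ ^ 2 = algebraMap (𝓞 K) (𝓞 L) e)
    (hθK : (θ : L) ∉ (⊥ : IntermediateField K L)) {σ : ℝ} (hσ : 1 ≤ σ)
    (v : HeightOneSpectrum (𝓞 K)) (h2 : (2 : 𝓞 K) ∉ v.asIdeal) (he : e ∉ v.asIdeal) :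
    |phi L σ v - (1 + chi v e) * wp σ v| ≤ 2 / (pr v : ℝ) ^ 2 := by
  classical
  obtain ⟨T, hT, hcard⟩ := exists_fiber (L := L) hn v
  have hv1 := one_lt_nm v
  have hp0 : (0 : ℝ) < pr v := by exact_mod_cast (pr_prime v).pos
  rcases chi_eq_one_or v he with hchi | hchi
  · obtain ⟨w₁, w₂, hne, hw₁, hw₂⟩ := exists_two_above hθ hθK v h2 he hchi
    have hTeq : T = {w₁, w₂} := by
      symm
      refine Finset.eq_of_subset_of_card_le ?_ ?_
      · intro w hw
        rw [Finset.mem_insert, Finset.mem_singleton] at hw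
        rcases hw with rfl | rfl
        · exact (hT _).mpr hw₁
        · exact (hT _).mpr hw₂
      · rw [Finset.card_pair hne]; exact hcard
    have hprod := prod_nm_dvd (K := K) v {w₁, w₂} (by
      intro w hw
      rw [Finset.mem_insert, Finset.mem_singleton] at hw
      rcases hw with rfl | rfl
      · exact hw₁
      · exact hw₂)
    rw [hn, Finset.prod_pair hne] at hprod
    have hle := Nat.le_of_dvd (pow_pos (by omega) _) hprod
    have h1 : nm v ≤ nm w₁ := by rw [← hw₁]; exact nm_dn_le w₁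
    have h3 : nm v ≤ nm w₂ := by rw [← hw₂]; exact nm_dn_le w₂
    have h4 : nm w₁ = nm v := by nlinarith
    have h5 : nm w₂ = nm v := by nlinarith
    rw [phi_eq σ v T hT, hTeq, Finset.sum_pair hne, wp, wp, h4, h5, hchi, wp]
    have : (nm v : ℝ) ^ (-σ) + (nm v : ℝ) ^ (-σ) - (1 + ((1 : ℤ) : ℝ)) * (nm v : ℝ) ^ (-σ) = 0 := by
      push_cast; ring
    rw [this, abs_zero]
    positivity
  · rw [hchi]
    have e0 : (1 + ((-1 : ℤ) : ℝ)) * wp σ v = 0 := by push_cast; ring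
    rw [e0, sub_zero, abs_of_nonneg (phi_nonneg σ v), phi_eq σ v T hT]
    have hterm : ∀ w ∈ T, wp σ w ≤ 1 / (pr v : ℝ) ^ 2 := by
      intro w hw
      have hwv : dn (K := K) w = v := (hT w).mp hw
      have hne : nm w ≠ nm (dn (K := K) w) := by
        intro h
        have h6 := chi_of_degree_one hθ w (by rw [hwv]; exact he) h
        rw [hwv, hchi] at h6
        norm_num at h6
      have h7 := sq_nm_dn_le w hne
      rw [hwv] at h7
      have h8 : (pr v : ℝ) ^ 2 ≤ nm w := by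
        have : pr v ^ 2 ≤ nm w := (Nat.pow_le_pow_left (pr_le_nm v) 2).trans h7
        exact_mod_cast this
      have h9 : (1 : ℝ) ≤ nm w := by exact_mod_cast (one_lt_nm w).le
      calc wp σ w ≤ (nm w : ℝ) ^ (-1 : ℝ) :=
            Real.rpow_le_rpow_of_exponent_le h9 (by linarith)
        _ = 1 / nm w := by rw [Real.rpow_neg_one, one_div]
        _ ≤ _ := one_div_le_one_div_of_le (by positivity) h8
    calc ∑ w ∈ T, wp σ w ≤ ∑ _w ∈ T, (1 / (pr v : ℝ) ^ 2) := Finset.sum_le_sum hterm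
      _ = T.card * (1 / (pr v : ℝ) ^ 2) := by rw [Finset.sum_const, nsmul_eq_mul]
      _ ≤ 2 * (1 / (pr v : ℝ) ^ 2) := by
          have : (T.card : ℝ) ≤ 2 := by exact_mod_cast hcard
          gcongr
      _ = _ := by ring

lemma finite_dvd {x : 𝓞 K} (hx : x ≠ 0) : {v : HeightOneSpectrum (𝓞 K) | x ∈ v.asIdeal}.Finite := by
  have h := Ideal.finite_factors (I := Ideal.span {x}) (by simpa using hx)
  refine h.subset fun v hv => ?_
  have hv' : x ∈ v.asIdeal := hv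
  change v.asIdeal ∣ Ideal.span {x}
  rw [Ideal.dvd_span_singleton]
  exact hv'

lemma abs_chi_real_le (v : HeightOneSpectrum (𝓞 K)) (e : 𝓞 K) : |(chi v e : ℝ)| ≤ 1 := by
  have := abs_chi_le v e
  exact_mod_cast this

/-- The character sum stays bounded: extension form. -/
theorem chi_sum_bound_ext [IsGalois K L] [FiniteDimensional K L]
    (hn : Module.finrank (𝓞 K) (𝓞 L) = 2) {e : 𝓞 K} (he0 : e ≠ 0) {θ : 𝓞 L}
    (hθ : θ ^ 2 = algebraMap (𝓞 K) (𝓞 L) e)
    (hθK : (θ : L) ∉ (⊥ : IntermediateField K L)) :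
    ∃ C : ℝ, 0 ≤ C ∧ ∀ᶠ σ : ℝ in 𝓝[>] 1, |∑' v, wp σ v * (chi v e : ℝ)| ≤ C := by
  classical
  obtain ⟨C₁, hC₁0, hC₁⟩ := PS_bound K
  obtain ⟨C₂, hC₂0, hC₂⟩ := PS_bound L
  have h20 : (2 : 𝓞 K) * e ≠ 0 := mul_ne_zero two_ne_zero he0
  set S : Finset (HeightOneSpectrum (𝓞 K)) := (finite_dvd h20).toFinset with hS
  have hSmem : ∀ v, v ∉ S → (2 : 𝓞 K) ∉ v.asIdeal ∧ e ∉ v.asIdeal := by
    intro v hv
    rw [hS, Set.Finite.mem_toFinset] at hv
    have hv' : (2 : 𝓞 K) * e ∉ v.asIdeal := hv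
    exact ⟨fun h => hv' (Ideal.mul_mem_right _ _ h), fun h => hv' (Ideal.mul_mem_left _ _ h)⟩
  have hsqC : 0 ≤ sqC K := tsum_nonneg fun v => by positivity
  refine ⟨C₁ + C₂ + (2 * sqC K + 2 * S.card), by positivity, ?_⟩
  filter_upwards [hC₁, hC₂, self_mem_nhdsWithin] with σ h1 h2 hσ
  have hσ' : 1 < σ := hσ
  have hphi : HasSum (fun v => phi L σ v) (PS L σ) :=
    (summable_wp (K := L) hσ').hasSum.tsum_fiberwise (dn (K := K))
  have hwp : HasSum (fun v : HeightOneSpectrum (𝓞 K) => wp σ v) (PS K σ) :=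
    (summable_wp (K := K) hσ').hasSum
  have hchi : Summable fun v : HeightOneSpectrum (𝓞 K) => wp σ v * (chi v e : ℝ) := by
    refine Summable.of_norm_bounded (summable_wp (K := K) hσ') fun v => ?_
    rw [norm_mul, Real.norm_eq_abs, Real.norm_eq_abs, abs_of_pos (wp_pos σ v)]
    exact mul_le_of_le_one_right (wp_pos σ v).le (abs_chi_real_le v e)
  have hdiff := (hphi.sub hwp).sub hchi.hasSum
  have hbound : |PS L σ - PS K σ - ∑' v, wp σ v * (chi v e : ℝ)| ≤ 2 * sqC K + 2 * S.card := by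
    have hg1 : HasSum (fun v : HeightOneSpectrum (𝓞 K) => 2 * (1 / (pr v : ℝ) ^ 2))
        (2 * sqC K) := summable_pr_sq.hasSum.mul_left 2
    have hg2 : HasSum (fun v : HeightOneSpectrum (𝓞 K) => if v ∈ S then (2 : ℝ) else 0)
        (2 * S.card) := by
      have h3 : HasSum (fun v : HeightOneSpectrum (𝓞 K) => if v ∈ S then (2 : ℝ) else 0)
        (∑ v ∈ S, if v ∈ S then (2 : ℝ) else 0) :=
        hasSum_sum_of_ne_finset_zero fun v hv => if_neg hv
      have h4 : ∑ v ∈ S, (if v ∈ S then (2 : ℝ) else 0) = 2 * S.card := by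
        rw [Finset.sum_congr rfl fun v hv => if_pos hv, Finset.sum_const, nsmul_eq_mul, mul_comm]
      rwa [h4] at h3
    have hg := hg1.add hg2
    rw [← hdiff.tsum_eq, ← Real.norm_eq_abs]
    refine tsum_of_norm_bounded hg fun v => ?_
    rw [Real.norm_eq_abs]
    have e1 : phi L σ v - wp σ v - wp σ v * (chi v e : ℝ) =
        phi L σ v - (1 + chi v e) * wp σ v := by ring
    rw [e1]
    by_cases hv : v ∈ S
    · rw [if_pos hv]
      have h3 := phi_nonneg (L := L) σ v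
      have h4 := phi_le (L := L) hn hσ'.le v
      have h5 := wp_le_half hσ'.le v
      have h6 := wp_pos σ v
      have h7 := abs_le.mp (abs_chi_real_le v e)
      have h8 : (0 : ℝ) ≤ 2 * (1 / (pr v : ℝ) ^ 2) := by positivity
      have h9 : (1 + (chi v e : ℝ)) * wp σ v ≤ 1 := by nlinarith [h7.1, h7.2]
      have h10 : 0 ≤ (1 + (chi v e : ℝ)) * wp σ v := mul_nonneg (by linarith [h7.1]) h6.le
      rw [abs_le]
      constructor <;> linarith
    · rw [if_neg hv, add_zero]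
      have h3 := phi_sub_le hn hθ hθK hσ'.le v (hSmem v hv).1 (hSmem v hv).2
      calc _ ≤ 2 / (pr v : ℝ) ^ 2 := h3
        _ = _ := by ring
  have h3 := abs_le.mp h1
  have h4 := abs_le.mp h2
  have h5 := abs_le.mp hbound
  rw [abs_le]
  constructor <;> linarith [h3.1, h3.2, h4.1, h4.2, h5.1, h5.2]

end Ext

open Polynomial in
/-- The character sum stays bounded. -/
theorem chi_sum_bound {K : Type*} [Field K] [NumberField K] {e : 𝓞 K} (he : ¬ IsSquare (e : K)) :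
    ∃ C : ℝ, 0 ≤ C ∧ ∀ᶠ σ : ℝ in 𝓝[>] 1, |∑' v, wp σ v * (chi v e : ℝ)| ≤ C := by
  have hirr : Irreducible (X ^ 2 - C (e : K) : K[X]) := by
    refine X_pow_sub_C_irreducible_of_prime Nat.prime_two fun b hb => he ⟨b, ?_⟩
    rw [← hb, sq]
  have : Fact (Irreducible (X ^ 2 - C (e : K) : K[X])) := ⟨hirr⟩
  have hmonic : (X ^ 2 - C (e : K) : K[X]).Monic := monic_X_pow_sub_C _ two_ne_zero
  have hfd : FiniteDimensional K (AdjoinRoot (X ^ 2 - C (e : K) : K[X])) :=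
    (AdjoinRoot.powerBasis hirr.ne_zero).finite
  have hrank : Module.finrank K (AdjoinRoot (X ^ 2 - C (e : K) : K[X])) = 2 := by
    rw [(AdjoinRoot.powerBasis hirr.ne_zero).finrank, AdjoinRoot.powerBasis_dim,
      natDegree_X_pow_sub_C]
  have hchar : CharZero (AdjoinRoot (X ^ 2 - C (e : K) : K[X])) :=
    charZero_of_injective_algebraMap (algebraMap K _).injective
  have hquad : Algebra.IsQuadraticExtension K (AdjoinRoot (X ^ 2 - C (e : K) : K[X])) :=
    ⟨hrank⟩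
  have hnf : NumberField (AdjoinRoot (X ^ 2 - C (e : K) : K[X])) :=
    { to_charZero := hchar
      to_finiteDimensional := FiniteDimensional.trans ℚ K _ }
  set θ₀ : AdjoinRoot (X ^ 2 - C (e : K) : K[X]) := AdjoinRoot.root _ with hθ₀
  have hθ₀sq : θ₀ ^ 2 = algebraMap K _ (e : K) := by
    have h1 := AdjoinRoot.eval₂_root (X ^ 2 - C (e : K) : K[X])
    rw [eval₂_sub, eval₂_pow, eval₂_X, eval₂_C, sub_eq_zero] at h1
    exact h1
  have hint : IsIntegral ℤ θ₀ := by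
    refine IsIntegral.of_pow (n := 2) (by norm_num) ?_
    rw [hθ₀sq]
    exact (RingOfIntegers.isIntegral_coe e).algebraMap
  set θ : 𝓞 (AdjoinRoot (X ^ 2 - C (e : K) : K[X])) := ⟨θ₀, hint⟩ with hθ
  have hcoe : (θ : AdjoinRoot (X ^ 2 - C (e : K) : K[X])) = θ₀ := rfl
  refine chi_sum_bound_ext (L := AdjoinRoot (X ^ 2 - C (e : K) : K[X])) (θ := θ) ?_ ?_ ?_ ?_
  · exact (IsFractionRing.finrank_eq (𝓞 K) K (𝓞 (AdjoinRoot (X ^ 2 - C (e : K) : K[X])))
      (AdjoinRoot (X ^ 2 - C (e : K) : K[X]))).symm.trans hrank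
  · rintro rfl
    exact he ⟨0, by simp⟩
  · apply RingOfIntegers.coe_injective
    rw [map_pow]
    exact hθ₀sq
  · rw [hcoe, IntermediateField.mem_bot]
    rintro ⟨y, hy⟩
    apply he
    refine ⟨y, (algebraMap K (AdjoinRoot (X ^ 2 - C (e : K) : K[X]))).injective ?_⟩
    rw [map_mul, hy]
    exact hθ₀sq.symm.trans (sq θ₀)

end Pool.Agent.Lib.MP_bf61d2_nt
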