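import Pool.Agent.Lib.MP_bf61d2_nt.Line
import Pool.Agent.Lib.MP_bf61d2_nt.Quad

set_option autoImplicit false

/-!
Bessel inequality for families of quadratic twists.
-/

namespace Pool.Agent.Lib.MP_bf61d2_nt

open Filter Topology NumberField IsDedekindDomain WeierstrassCurve

variable {K : Type*} [Field K] [NumberField K]

lemma tsum_cos_eq (W : WeierstrassCurve K) {σ : ℝ} (hσ : 1 < σ) (t : ℝ) :
    (LSeries (fun n => (cp W n : ℂ)) (σ + t * Complex.I)).re =
      ∑' v : HeightOneSpectrum (𝓞 K), wp σ v * (cc W v * Real.cos (t * Real.log (nm v))) := by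
  have hre : 1 < ((σ : ℂ) + t * Complex.I).re := by simpa using hσ
  have hs : Summable fun v : HeightOneSpectrum (𝓞 K) =>
      (cc W v : ℂ) * (nm v : ℂ) ^ (-((σ : ℂ) + t * Complex.I)) := by
    refine Summable.of_norm_bounded ((summable_wp (K := K) hσ).mul_left 2) fun v => ?_
    rw [norm_mul, Complex.norm_real, norm_cpow]
    have e : ((σ : ℂ) + t * Complex.I).re = σ := by simp
    rw [e]
    exact mul_le_mul_of_nonneg_right (abs_cc_le W v) (wp_pos σ v).le
  rw [(hasSum_cp W hre).LSeries_eq, Complex.re_tsum hs]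
  refine tsum_congr fun v => ?_
  rw [Complex.re_ofReal_mul, cpow_re (by have := one_lt_nm v; omega)]
  rw [wp]
  ring

lemma log_norm_LSeries' (W : WeierstrassCurve K) {δ : ℝ} (hδ : 0 < δ) (t : ℝ) :
    |Real.log ‖W.LSeries ((3 / 2 + δ : ℝ) + t * Complex.I)‖ -
      ∑' v : HeightOneSpectrum (𝓞 K), wp (1 + δ) v *
        (cc W v * Real.cos (t * Real.log (nm v)))| ≤ RB K := by
  set s : ℂ := (3 / 2 + δ : ℝ) + t * Complex.I with hs
  have hre : s.re = 3 / 2 + δ := by simp [hs]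
  have h1 : 3 / 2 < s.re := by rw [hre]; linarith
  have h2 : s - 1 / 2 = ((1 + δ : ℝ) : ℂ) + t * Complex.I := by
    rw [hs]; push_cast; ring
  rw [structure_formula W h1, Complex.norm_exp, Real.log_exp, Complex.add_re, h2,
    tsum_cos_eq W (by linarith), add_sub_cancel_left]
  exact (Complex.abs_re_le_norm _).trans (norm_Rem_le W h1.le)

/-- The final asymptotic inequality. -/
lemma final_ineq {τ : Type*} (T : Finset τ) {n ε : ℝ} (hn : 1 ≤ n) (hε : 0 < ε) (D C R : ℝ) :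
    ∀ᶠ L : ℝ in atTop, ∀ X Y : τ → ℝ, ∑ t ∈ T, X t ^ 2 ≤ (L + D) * (4 * n * (L + C)) →
      (∀ t ∈ T, |Y t - X t| ≤ R) → ∑ t ∈ T, Y t ^ 2 ≤ (4 * n + ε) * L ^ 2 := by
  set η : ℝ := ε / (8 * n) with hη
  have hη0 : 0 < η := by positivity
  have hlin := eventually_lin_le ((1 + η) * (4 * n) * (D + C))
    ((1 + η) * (4 * n) * (D * C) + (1 + 1 / η) * T.card * R ^ 2) (half_pos hε)
  filter_upwards [hlin] with L h4 X Y hX hY
  have hterm : ∀ t ∈ T, Y t ^ 2 ≤ (1 + η) * X t ^ 2 + (1 + 1 / η) * R ^ 2 := by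
    intro t ht
    have h7 : (Y t - X t) ^ 2 ≤ R ^ 2 := by
      rw [← sq_abs]
      exact pow_le_pow_left₀ (abs_nonneg _) (hY t ht) 2
    have h8 : Y t ^ 2 ≤ (1 + η) * X t ^ 2 + (1 + 1 / η) * (Y t - X t) ^ 2 := by
      have h9 : (1 + η) * X t ^ 2 + (1 + 1 / η) * (Y t - X t) ^ 2 - Y t ^ 2 =
          η * (X t - 1 / η * (Y t - X t)) ^ 2 := by
        field_simp
        ring
      have h10 : 0 ≤ η * (X t - 1 / η * (Y t - X t)) ^ 2 := by positivity
      linarith
    have h11 : 0 ≤ 1 + 1 / η := by positivity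
    nlinarith [mul_le_mul_of_nonneg_left h7 h11]
  calc ∑ t ∈ T, Y t ^ 2 ≤ ∑ t ∈ T, ((1 + η) * X t ^ 2 + (1 + 1 / η) * R ^ 2) :=
        Finset.sum_le_sum hterm
    _ = (1 + η) * ∑ t ∈ T, X t ^ 2 + (1 + 1 / η) * T.card * R ^ 2 := by
        rw [Finset.sum_add_distrib, ← Finset.mul_sum, Finset.sum_const, nsmul_eq_mul]
        ring
    _ ≤ (1 + η) * ((L + D) * (4 * n * (L + C))) + (1 + 1 / η) * T.card * R ^ 2 := by
        gcongr
    _ = (1 + η) * (4 * n) * L ^ 2 + ((1 + η) * (4 * n) * (D + C) * L +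
          ((1 + η) * (4 * n) * (D * C) + (1 + 1 / η) * T.card * R ^ 2)) := by ring
    _ ≤ (1 + η) * (4 * n) * L ^ 2 + ε / 2 * L ^ 2 := by linarith
    _ = (4 * n + ε) * L ^ 2 := by
        rw [hη]
        field_simp
        ring

/-- The twisted curves. -/
def tc (a b d : K) : WeierstrassCurve K := ⟨0, 0, 0, a * d ^ 2, b * d ^ 3⟩

lemma exists_model (a b : K) : ∃ A B n : 𝓞 K, n ≠ 0 ∧ a * (n : K) ^ 4 = A ∧ b * (n : K) ^ 6 = B := by
  obtain ⟨a₁, a₂, ha₂, rfl⟩ := IsFractionRing.div_surjective (A := 𝓞 K) a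
  obtain ⟨b₁, b₂, hb₂, rfl⟩ := IsFractionRing.div_surjective (A := 𝓞 K) b
  have ha : a₂ ≠ 0 := nonZeroDivisors.ne_zero ha₂
  have hb : b₂ ≠ 0 := nonZeroDivisors.ne_zero hb₂
  have ha' : (a₂ : K) ≠ 0 := by simpa using ha
  have hb' : (b₂ : K) ≠ 0 := by simpa using hb
  refine ⟨a₁ * a₂ ^ 3 * b₂ ^ 4, b₁ * a₂ ^ 6 * b₂ ^ 5, a₂ * b₂, mul_ne_zero ha hb, ?_, ?_⟩
  · simp only [map_mul, map_pow]
    field_simp
  · simp only [map_mul, map_pow]
    field_simp

lemma exists_sqrep {d : K} (hd : d ≠ 0) : ∃ e m : 𝓞 K, e ≠ 0 ∧ m ≠ 0 ∧ d * (m : K) ^ 2 = e := by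
  obtain ⟨x, y, hy, rfl⟩ := IsFractionRing.div_surjective (A := 𝓞 K) d
  have hy0 : y ≠ 0 := nonZeroDivisors.ne_zero hy
  have hy' : (y : K) ≠ 0 := by simpa using hy0
  have hx0 : x ≠ 0 := by
    rintro rfl
    apply hd
    simp
  refine ⟨x * y, y, mul_ne_zero hx0 hy0, hy0, ?_⟩
  simp only [map_mul]
  field_simp

lemma tc_eq {a b d : K} {A B n e m : 𝓞 K} (hn : (n : K) ≠ 0) (hm : (m : K) ≠ 0)
    (ha : a * (n : K) ^ 4 = A) (hb : b * (n : K) ^ 6 = B) (hd : d * (m : K) ^ 2 = e) :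
    tc a b d = (⟨Units.mk0 ((n : K) * m) (mul_ne_zero hn hm), 0, 0, 0⟩ : VariableChange K) •
      (⟨0, 0, 0, A * e ^ 2, B * e ^ 3⟩ : WeierstrassCurve (𝓞 K)).map (algebraMap (𝓞 K) K) := by
  have e1 : ((algebraMap (𝓞 K) K) A) = a * (n : K) ^ 4 := ha.symm
  have e2 : ((algebraMap (𝓞 K) K) B) = b * (n : K) ^ 6 := hb.symm
  have e3 : ((algebraMap (𝓞 K) K) e) = d * (m : K) ^ 2 := hd.symm
  rw [variableChange_def]
  ext
  · simp [tc]
  · simp [tc]
  · simp [tc]
  · simp only [tc, map_a₄, map_a₂, map_a₁, map_a₃, map_mul, map_pow, map_zero, e1, e3,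
      Units.val_inv_eq_inv_val, Units.val_mk0]
    field_simp
    ring
  · simp only [tc, map_a₆, map_a₄, map_a₂, map_a₁, map_a₃, map_mul, map_pow, map_zero, e2, e3,
      Units.val_inv_eq_inv_val, Units.val_mk0]
    field_simp
    ring

lemma cc_eq_of_tr {W W' : WeierstrassCurve K} {v : HeightOneSpectrum (𝓞 K)} {c : ℤ}
    (h : tr W' v = c * tr W v) : cc W' v = c * cc W v := by
  unfold cc
  split_ifs with h1
  · rw [h]; push_cast; ring
  · simp

lemma isSquare_mul_iff {d d' : K} {e e' m m' : 𝓞 K} (hm : (m : K) ≠ 0) (hm' : (m' : K) ≠ 0)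
    (hd : d * (m : K) ^ 2 = e) (hd' : d' * (m' : K) ^ 2 = e') (h : ¬ IsSquare (d * d')) :
    ¬ IsSquare ((e * e' : 𝓞 K) : K) := by
  rintro ⟨y, hy⟩
  apply h
  refine ⟨y / (m * m'), ?_⟩
  have e1 : ((e * e' : 𝓞 K) : K) = (d * (m : K) ^ 2) * (d' * (m' : K) ^ 2) := by
    rw [hd, hd']
    exact map_mul (algebraMap (𝓞 K) K) e e'
  rw [e1] at hy
  rw [div_mul_div_comm, ← hy]
  field_simp

theorem twist_bessel (a b : K) (hab : 4 * a ^ 3 + 27 * b ^ 2 ≠ 0) (D : Finset K)
    (hD0 : ∀ d ∈ D, d ≠ 0) (hD : ∀ d ∈ D, ∀ d' ∈ D, d ≠ d' → ¬ IsSquare (d * d')) (t : ℝ)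
    {ε : ℝ} (hε : 0 < ε) : ∀ᶠ σ : ℝ in 𝓝[>] (3 / 2),
    ∑ d ∈ D, Real.log ‖(tc a b d).LSeries (σ + t * Complex.I)‖ ^ 2 ≤
      (4 + ε) * Real.log (σ - 3 / 2) ^ 2 := by
  classical
  obtain ⟨A, B, n, hn0, ha, hb⟩ := exists_model a b
  have hn : (n : K) ≠ 0 := by simpa using hn0
  choose! e m he0 hm0 hem using fun (d : K) (hd : d ≠ 0) => exists_sqrep (K := K) hd
  have hm : ∀ d, d ≠ 0 → (m d : K) ≠ 0 := fun d hd => by simpa using hm0 d hd
  set W : WeierstrassCurve K := tc a b 1 with hW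
  set V₀ : WeierstrassCurve (𝓞 K) := ⟨0, 0, 0, A, B⟩ with hV₀
  have hWeq : W = (⟨Units.mk0 ((n : K) * (1 : 𝓞 K)) (mul_ne_zero hn (by simp)), 0, 0, 0⟩ :
      VariableChange K) • V₀.map (algebraMap (𝓞 K) K) := by
    have h := tc_eq (a := a) (b := b) (d := 1) (e := 1) (m := 1) hn (by simp) ha hb (by simp)
    rw [hW, h]
    simp only [one_pow, mul_one]
    rfl
  have hΔ0 : V₀.Δ ≠ 0 := by
    intro h0
    apply hab
    have h1 : V₀.Δ = -16 * (4 * A ^ 3 + 27 * B ^ 2) := by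
      simp only [hV₀, Δ, b₂, b₄, b₆, b₈]
      ring
    rw [h1] at h0
    have h2 : (4 * A ^ 3 + 27 * B ^ 2 : 𝓞 K) = 0 := by
      rcases mul_eq_zero.mp h0 with h | h
      · norm_num at h
      · exact h
    have h3 := congrArg (algebraMap (𝓞 K) K) h2
    rw [map_add, map_mul, map_mul, map_pow, map_pow, map_ofNat, map_ofNat, map_zero] at h3
    have h4 : 4 * (a * (n : K) ^ 4) ^ 3 + 27 * (b * (n : K) ^ 6) ^ 2 = 0 := by
      rw [ha, hb]; exact h3
    have h5 : (4 * a ^ 3 + 27 * b ^ 2) * (n : K) ^ 12 = 0 := by linear_combination h4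
    rcases mul_eq_zero.mp h5 with h | h
    · exact h
    · exact absurd h (pow_ne_zero _ hn)
  -- the exceptional places
  have h60 : ∀ d ∈ D, (6 : 𝓞 K) * e d * V₀.Δ ≠ 0 := fun d hd =>
    mul_ne_zero (mul_ne_zero (by norm_num) (he0 d (hD0 d hd))) hΔ0
  have hloc : ∀ d ∈ D, ∀ v : HeightOneSpectrum (𝓞 K), (6 : 𝓞 K) * e d * V₀.Δ ∉ v.asIdeal →
      cc (tc a b d) v = chi v (e d) * cc W v := by
    intro d hd v hv
    have h2 : (2 : 𝓞 K) ∉ v.asIdeal := fun h => hv (by
      have : (6 : 𝓞 K) * e d * V₀.Δ = 3 * e d * V₀.Δ * 2 := by ring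
      rw [this]; exact Ideal.mul_mem_left _ _ h)
    have h3 : (3 : 𝓞 K) ∉ v.asIdeal := fun h => hv (by
      have : (6 : 𝓞 K) * e d * V₀.Δ = 2 * e d * V₀.Δ * 3 := by ring
      rw [this]; exact Ideal.mul_mem_left _ _ h)
    have h4 : e d ∉ v.asIdeal := fun h => hv (by
      have : (6 : 𝓞 K) * e d * V₀.Δ = 6 * V₀.Δ * e d := by ring
      rw [this]; exact Ideal.mul_mem_left _ _ h)
    have h5 : V₀.Δ ∉ v.asIdeal := fun h => hv (Ideal.mul_mem_left _ _ h)
    exact cc_eq_of_tr (tr_twist v _ _ hWeq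
      (tc_eq hn (hm d (hD0 d hd)) ha hb (hem d (hD0 d hd))) h5 h4 h2 h3)
  set S : K → Finset (HeightOneSpectrum (𝓞 K)) := fun d =>
    if hd : d ∈ D then (finite_dvd (h60 d hd)).toFinset else ∅ with hS
  have hSmem : ∀ d ∈ D, ∀ v, v ∉ S d → (6 : 𝓞 K) * e d * V₀.Δ ∉ v.asIdeal := by
    intro d hd v hv
    simp only [hS, dif_pos hd, Set.Finite.mem_toFinset] at hv
    exact hv
  obtain ⟨C₂, hC₂0, hC₂⟩ := PS_bound K
  -- the off diagonal bound
  have hoff : ∃ C : ℝ, 0 ≤ C ∧ ∀ᶠ σ : ℝ in 𝓝[>] 1, ∀ d ∈ D, ∀ d' ∈ D, d ≠ d' →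
      |∑' v, wp σ v * (chi v (e d * e d') : ℝ)| ≤ C := by
    have h1 : ∀ x ∈ D ×ˢ D, ∃ C : ℝ, 0 ≤ C ∧ (x.1 ≠ x.2 → ∀ᶠ σ : ℝ in 𝓝[>] 1,
        |∑' v, wp σ v * (chi v (e x.1 * e x.2) : ℝ)| ≤ C) := by
      intro x hx
      obtain ⟨hx1, hx2⟩ := Finset.mem_product.mp hx
      by_cases h : x.1 = x.2
      · exact ⟨0, le_rfl, fun h' => absurd h h'⟩
      · obtain ⟨C, hC0, hC⟩ := chi_sum_bound (isSquare_mul_iff (hm _ (hD0 _ hx1))
          (hm _ (hD0 _ hx2)) (hem _ (hD0 _ hx1)) (hem _ (hD0 _ hx2)) (hD _ hx1 _ hx2 h))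
        exact ⟨C, hC0, fun _ => hC⟩
    choose! Cf hCf using h1
    refine ⟨∑ x ∈ D ×ˢ D, Cf x, Finset.sum_nonneg fun x hx => (hCf x hx).1, ?_⟩
    have h2 : ∀ᶠ σ : ℝ in 𝓝[>] 1, ∀ x ∈ D ×ˢ D, x.1 ≠ x.2 →
        |∑' v, wp σ v * (chi v (e x.1 * e x.2) : ℝ)| ≤ Cf x := by
      rw [Filter.eventually_all_finset]
      intro x hx
      by_cases h : x.1 = x.2
      · exact Eventually.of_forall fun σ h' => absurd h h'
      · exact ((hCf x hx).2 h).mono fun σ h' _ => h'
    filter_upwards [h2] with σ hσ d hd d' hd' hne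
    have hx : (d, d') ∈ D ×ˢ D := Finset.mem_product.mpr ⟨hd, hd'⟩
    exact (hσ (d, d') hx hne).trans
      (Finset.single_le_sum (f := Cf) (fun x hx => (hCf x hx).1) hx)
  obtain ⟨C₃, hC₃0, hC₃⟩ := hoff
  set R : ℝ := RB K + 2 * ∑ d ∈ D, ((S d).card : ℝ) with hR
  have hfin := final_ineq D (n := 1) le_rfl hε (C₂ + C₃ * D.card) C₂ R
  have hshift : Tendsto (fun σ : ℝ => σ - 3 / 2) (𝓝[>] (3 / 2)) (𝓝[>] 0) := by
    refine tendsto_nhdsWithin_iff.mpr ⟨?_, ?_⟩
    · have h : Tendsto (fun σ : ℝ => σ - 3 / 2) (𝓝 (3 / 2)) (𝓝 (3 / 2 - 3 / 2)) :=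
        tendsto_id.sub_const _
      rw [sub_self] at h
      exact h.mono_left nhdsWithin_le_nhds
    · filter_upwards [self_mem_nhdsWithin] with σ hσ
      have : (3 / 2 : ℝ) < σ := hσ
      exact (by linarith : (0 : ℝ) < σ - 3 / 2)
  have hmain : ∀ᶠ δ : ℝ in 𝓝[>] 0, ∑ d ∈ D,
      Real.log ‖(tc a b d).LSeries ((3 / 2 + δ : ℝ) + t * Complex.I)‖ ^ 2 ≤
      (4 + ε) * Real.log δ ^ 2 := by
    filter_upwards [self_mem_nhdsWithin,
      tendsto_one_add.eventually hC₂, tendsto_one_add.eventually hC₃,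
      tendsto_log_inv.eventually hfin,
      tendsto_log_inv.eventually (eventually_gt_atTop 1)] with δ hδ h2 h3 h4 h5
    have hδ0 : 0 < δ := hδ
    have hσ1 : 1 < 1 + δ := by linarith
    rw [add_sub_cancel_left] at h2
    set Lg : ℝ := Real.log (1 / δ) with hLg
    have hLgd : Real.log δ ^ 2 = Lg ^ 2 := by
      rw [hLg, one_div, Real.log_inv, neg_sq]
    rw [hLgd]
    set c : HeightOneSpectrum (𝓞 K) → ℝ := fun v => cc W v * Real.cos (t * Real.log (nm v))
      with hc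
    have hcb : ∀ v, |c v| ≤ 2 := fun v => by
      rw [hc]
      simp only
      rw [abs_mul]
      calc |cc W v| * |Real.cos (t * Real.log (nm v))| ≤ 2 * 1 :=
            mul_le_mul (abs_cc_le W v) (Real.abs_cos_le_one _) (abs_nonneg _) (by norm_num)
        _ = 2 := by norm_num
    have hws := summable_wp (K := K) hσ1
    have hPS := (abs_le.mp h2).2
    have hbes := bessel (fun v => wp (1 + δ) v) c (fun (d : K) v => (chi v (e d) : ℝ))
      (fun (_ : K) _ => (0 : ℝ)) D (P := Lg + C₂) (C := C₃) (B := 2) hws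
      (fun v => (wp_pos _ v).le) hcb (fun d v => abs_chi_real_le v (e d))
      (fun d v => by simp)
      (fun d _ => by
        have hle : ∀ v : HeightOneSpectrum (𝓞 K), wp (1 + δ) v *
            ((chi v (e d) : ℝ) * (chi v (e d) : ℝ) + 0 * 0) ≤ wp (1 + δ) v := by
          intro v
          have h6 := abs_chi_real_le v (e d)
          have h7 : (chi v (e d) : ℝ) * (chi v (e d) : ℝ) ≤ 1 := by
            rw [← sq, ← sq_abs]
            exact pow_le_one₀ (abs_nonneg _) h6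
          calc _ ≤ wp (1 + δ) v * 1 :=
                mul_le_mul_of_nonneg_left (by linarith) (wp_pos _ v).le
            _ = _ := mul_one _
        have hs : Summable fun v : HeightOneSpectrum (𝓞 K) => wp (1 + δ) v *
            ((chi v (e d) : ℝ) * (chi v (e d) : ℝ) + 0 * 0) := by
          refine Summable.of_nonneg_of_le (fun v => mul_nonneg (wp_pos _ v).le (by
            have := mul_self_nonneg (chi v (e d) : ℝ)
            linarith)) hle hws
        have h8 := hs.tsum_le_tsum hle hws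
        have h9 : ∑' v : HeightOneSpectrum (𝓞 K), wp (1 + δ) v = PS K (1 + δ) := rfl
        rw [h9] at h8
        linarith)
      (fun d hd d' hd' hne => by
        have e1 : ∑' v : HeightOneSpectrum (𝓞 K), wp (1 + δ) v *
            ((chi v (e d) : ℝ) * (chi v (e d') : ℝ) + 0 * 0) =
            ∑' v, wp (1 + δ) v * (chi v (e d * e d') : ℝ) := by
          refine tsum_congr fun v => ?_
          rw [chi_mul]; push_cast; ring
        rw [e1]
        exact h3 d hd d' hd' hne)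
      (by linarith) hC₃0
    have hcsq : ∑' v, wp (1 + δ) v * c v ^ 2 ≤ 4 * PS K (1 + δ) := by
      have h6 : ∀ v, wp (1 + δ) v * c v ^ 2 ≤ 4 * wp (1 + δ) v := by
        intro v
        have h7 : c v ^ 2 ≤ 4 := by
          rw [← sq_abs]
          calc |c v| ^ 2 ≤ 2 ^ 2 := pow_le_pow_left₀ (abs_nonneg _) (hcb v) 2
            _ = 4 := by norm_num
        nlinarith [wp_pos (1 + δ) v]
      have h8 : Summable fun v => wp (1 + δ) v * c v ^ 2 :=
        Summable.of_nonneg_of_le (fun v => mul_nonneg (wp_pos _ v).le (sq_nonneg _)) h6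
          (hws.mul_left 4)
      calc ∑' v, wp (1 + δ) v * c v ^ 2 ≤ ∑' v, 4 * wp (1 + δ) v :=
            h8.tsum_le_tsum h6 (hws.mul_left 4)
        _ = 4 * PS K (1 + δ) := tsum_mul_left
    refine h4 (fun d => ∑' v, wp (1 + δ) v * (c v * (chi v (e d) : ℝ)))
      (fun d => Real.log ‖(tc a b d).LSeries ((3 / 2 + δ : ℝ) + t * Complex.I)‖) ?_ ?_ |>.trans ?_
    · refine hbes.trans ?_
      have hpos : 0 ≤ Lg + C₂ + C₃ * D.card := by positivity
      calc (Lg + C₂ + C₃ * D.card) * ∑' v, wp (1 + δ) v * c v ^ 2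
          ≤ (Lg + C₂ + C₃ * D.card) * (4 * (Lg + C₂)) := by
            refine mul_le_mul_of_nonneg_left (hcsq.trans ?_) hpos
            linarith
        _ = _ := by ring
    · intro d hd
      have h6 := log_norm_LSeries' (tc a b d) hδ0 t
      have h7 : |∑' v : HeightOneSpectrum (𝓞 K), wp (1 + δ) v *
          (cc (tc a b d) v * Real.cos (t * Real.log (nm v))) -
          ∑' v, wp (1 + δ) v * (c v * (chi v (e d) : ℝ))| ≤ 2 * (S d).card := by
        have hs1 : Summable fun v : HeightOneSpectrum (𝓞 K) => wp (1 + δ) v *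
            (cc (tc a b d) v * Real.cos (t * Real.log (nm v))) := by
          refine summable_mul_bdd hws (fun v => (wp_pos _ v).le) (B := 2) fun v => ?_
          rw [abs_mul]
          calc _ ≤ 2 * 1 := mul_le_mul (abs_cc_le _ v) (Real.abs_cos_le_one _) (abs_nonneg _)
                (by norm_num)
            _ = 2 := by norm_num
        have hs2 : Summable fun v : HeightOneSpectrum (𝓞 K) => wp (1 + δ) v *
            (c v * (chi v (e d) : ℝ)) := by
          refine summable_mul_bdd hws (fun v => (wp_pos _ v).le) (B := 2) fun v => ?_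
          rw [abs_mul]
          calc _ ≤ 2 * 1 := mul_le_mul (hcb v) (abs_chi_real_le v _) (abs_nonneg _)
                (by norm_num)
            _ = 2 := by norm_num
        rw [← hs1.tsum_sub hs2, ← Real.norm_eq_abs]
        have hg : HasSum (fun v : HeightOneSpectrum (𝓞 K) => if v ∈ S d then (2 : ℝ) else 0)
            (2 * (S d).card) := by
          have h8 : HasSum (fun v : HeightOneSpectrum (𝓞 K) => if v ∈ S d then (2 : ℝ) else 0)
            (∑ v ∈ S d, if v ∈ S d then (2 : ℝ) else 0) :=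
            hasSum_sum_of_ne_finset_zero fun v hv => if_neg hv
          have h9 : ∑ v ∈ S d, (if v ∈ S d then (2 : ℝ) else 0) = 2 * (S d).card := by
            rw [Finset.sum_congr rfl fun v hv => if_pos hv, Finset.sum_const, nsmul_eq_mul,
              mul_comm]
          rwa [h9] at h8
        refine tsum_of_norm_bounded hg fun v => ?_
        rw [Real.norm_eq_abs]
        by_cases hv : v ∈ S d
        · rw [if_pos hv]
          have h10 := wp_le_half hσ1.le v
          have h11 := wp_pos (1 + δ) v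
          have h12 : |cc (tc a b d) v * Real.cos (t * Real.log (nm v)) -
              c v * (chi v (e d) : ℝ)| ≤ 4 := by
            refine (abs_sub _ _).trans ?_
            have h13 : |cc (tc a b d) v * Real.cos (t * Real.log (nm v))| ≤ 2 := by
              rw [abs_mul]
              calc _ ≤ 2 * 1 := mul_le_mul (abs_cc_le _ v) (Real.abs_cos_le_one _)
                    (abs_nonneg _) (by norm_num)
                _ = 2 := by norm_num
            have h14 : |c v * (chi v (e d) : ℝ)| ≤ 2 := by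
              rw [abs_mul]
              calc _ ≤ 2 * 1 := mul_le_mul (hcb v) (abs_chi_real_le v _) (abs_nonneg _)
                    (by norm_num)
                _ = 2 := by norm_num
            linarith
          rw [← mul_sub, abs_mul, abs_of_pos h11]
          nlinarith [abs_nonneg (cc (tc a b d) v * Real.cos (t * Real.log (nm v)) -
              c v * (chi v (e d) : ℝ))]
        · rw [if_neg hv, hloc d hd v (hSmem d hd v hv)]
          have : wp (1 + δ) v * ((chi v (e d) : ℝ) * cc W v * Real.cos (t * Real.log (nm v))) -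
              wp (1 + δ) v * (c v * (chi v (e d) : ℝ)) = 0 := by
            rw [hc]; ring
          rw [this, abs_zero]
      have h8 : (2 : ℝ) * (S d).card ≤ 2 * ∑ d ∈ D, ((S d).card : ℝ) := by
        have := Finset.single_le_sum (f := fun d => ((S d).card : ℝ))
          (fun d _ => Nat.cast_nonneg _) hd
        linarith
      have h9 := abs_le.mp h6
      have h10 := abs_le.mp h7
      rw [abs_le, hR]
      constructor <;> linarith [h9.1, h9.2, h10.1, h10.2]
    · rw [mul_one]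
  have h := hshift.eventually hmain
  refine h.mono fun σ hσ => ?_
  have e1 : ((3 / 2 + (σ - 3 / 2) : ℝ) : ℂ) = σ := by norm_num
  simp_rw [e1] at hσ
  exact hσ

end Pool.Agent.Lib.MP_bf61d2_nt
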