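import Pool.Agent.Lib.MP_bf61d2_nt.Hasse
import Pool.Agent.Lib.MP_bf61d2_nt.Residue
import Pool.Agent.Lib.MP_bf61d2_nt.Euler
import Pool.Agent.Lib.MP_bf61d2_nt.Places

set_option autoImplicit false

/-!
The inverse power series of a quadratic polynomial, and local Euler factors.
-/

namespace Pool.Agent.Lib.MP_bf61d2_nt

open Polynomial Filter Topology LSeries

/-- The quadratic polynomial. -/
noncomputable def quad (a b : ℤ) : ℤ[X] := 1 - C a * X + C b * X ^ 2

/-- The inverse power series. -/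
noncomputable def inv (a b : ℤ) : PowerSeries ℤ := PowerSeries.invOfUnit (quad a b : ℤ[X]) 1

lemma quad_mul_inv (a b : ℤ) : ((quad a b : ℤ[X]) : PowerSeries ℤ) * inv a b = 1 := by
  refine PowerSeries.mul_invOfUnit _ _ ?_
  simp [quad]

lemma coe_quad (a b : ℤ) : ((quad a b : ℤ[X]) : PowerSeries ℤ) =
    1 - PowerSeries.C a * PowerSeries.X + PowerSeries.C b * PowerSeries.X ^ 2 := by
  rw [quad]
  simp only [Polynomial.coe_add, Polynomial.coe_sub, Polynomial.coe_mul, Polynomial.coe_one,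
    Polynomial.coe_C, Polynomial.coe_X, Polynomial.coe_pow]

lemma coeff_inv_zero (a b : ℤ) : (inv a b).coeff 0 = 1 := by
  have h := congrArg (PowerSeries.coeff 0) (quad_mul_inv a b)
  rw [coe_quad] at h
  simpa using h

lemma constantCoeff_inv (a b : ℤ) : (inv a b).constantCoeff = 1 := by
  rw [← PowerSeries.coeff_zero_eq_constantCoeff_apply, coeff_inv_zero]

lemma coeff_inv_one (a b : ℤ) : (inv a b).coeff 1 = a := by
  have h := congrArg (PowerSeries.coeff 1) (quad_mul_inv a b)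
  rw [coe_quad] at h
  have e : (1 - PowerSeries.C a * PowerSeries.X + PowerSeries.C b * PowerSeries.X ^ 2) * inv a b =
      inv a b - PowerSeries.C a * (PowerSeries.X * inv a b) +
        PowerSeries.C b * (PowerSeries.X ^ 2 * inv a b) := by ring
  rw [e, map_add, map_sub, PowerSeries.coeff_C_mul, PowerSeries.coeff_C_mul,
    show (1 : ℕ) = 0 + 1 from rfl, PowerSeries.coeff_succ_X_mul, coeff_inv_zero,
    PowerSeries.coeff_X_pow_mul'] at h
  simp only [PowerSeries.coeff_one] at h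
  norm_num at h
  linarith

lemma coeff_inv_add_two (a b : ℤ) (k : ℕ) :
    (inv a b).coeff (k + 2) = a * (inv a b).coeff (k + 1) - b * (inv a b).coeff k := by
  have h := congrArg (PowerSeries.coeff (k + 2)) (quad_mul_inv a b)
  rw [coe_quad] at h
  have e : (1 - PowerSeries.C a * PowerSeries.X + PowerSeries.C b * PowerSeries.X ^ 2) * inv a b =
      inv a b - PowerSeries.C a * (PowerSeries.X * inv a b) +
        PowerSeries.C b * (PowerSeries.X ^ 2 * inv a b) := by ring
  rw [e, map_add, map_sub, PowerSeries.coeff_C_mul, PowerSeries.coeff_C_mul,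
    PowerSeries.coeff_X_pow_mul, show k + 2 = (k + 1) + 1 from rfl,
    PowerSeries.coeff_succ_X_mul, PowerSeries.coeff_one, if_neg (by omega)] at h
  linarith

/-- Majorant for the partial sums. -/
lemma sum_inv_le {a b : ℤ} {T x : ℝ} (hT : 0 ≤ T) (hx : |(a : ℝ)| * T + |(b : ℝ)| * T ^ 2 ≤ x)
    (hx1 : x < 1) (N : ℕ) :
    ∑ k ∈ Finset.range N, |((inv a b).coeff k : ℝ)| * T ^ k ≤ 1 / (1 - x) := by
  have h1x : 0 < 1 - x := by linarith
  have hone : 1 ≤ 1 / (1 - x) := by
    rw [le_div_iff₀ h1x]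
    have : 0 ≤ |(a : ℝ)| * T + |(b : ℝ)| * T ^ 2 := by positivity
    linarith
  set g : ℕ → ℝ := fun k => |((inv a b).coeff k : ℝ)| * T ^ k with hg
  have hg0 : ∀ k, 0 ≤ g k := fun k => by positivity
  have hrec : ∀ k, g (k + 2) ≤ |(a : ℝ)| * T * g (k + 1) + |(b : ℝ)| * T ^ 2 * g k := by
    intro k
    simp only [hg]
    rw [coeff_inv_add_two]
    push_cast
    have h1 : |(a : ℝ) * ((inv a b).coeff (k + 1) : ℝ) - b * ((inv a b).coeff k : ℝ)| ≤
        |(a : ℝ)| * |((inv a b).coeff (k + 1) : ℝ)| + |(b : ℝ)| * |((inv a b).coeff k : ℝ)| := by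
      rw [← abs_mul, ← abs_mul]; exact abs_sub _ _
    calc _ ≤ (|(a : ℝ)| * |((inv a b).coeff (k + 1) : ℝ)| +
          |(b : ℝ)| * |((inv a b).coeff k : ℝ)|) * T ^ (k + 2) := by gcongr
      _ = _ := by ring
  have hg00 : g 0 = 1 := by simp [hg, coeff_inv_zero]
  have hg1 : g 1 = |(a : ℝ)| * T := by simp [hg, coeff_inv_one]
  have key : ∀ N, ∑ k ∈ Finset.range N, g k ≤ 1 / (1 - x) ∧
      ∑ k ∈ Finset.range (N + 1), g k ≤ 1 / (1 - x) := by
    intro N
    induction N with
    | zero =>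
      refine ⟨?_, by simpa [hg00] using hone⟩
      rw [Finset.sum_range_zero]
      positivity
    | succ N ih =>
      obtain ⟨i1, i2⟩ := ih
      refine ⟨i2, ?_⟩
      rw [Finset.sum_range_succ' _ (N + 1), Finset.sum_range_succ' _ N, hg00]
      have h2 : ∑ k ∈ Finset.range N, g (k + 1 + 1) ≤
          |(a : ℝ)| * T * ∑ k ∈ Finset.range N, g (k + 1) +
            |(b : ℝ)| * T ^ 2 * ∑ k ∈ Finset.range N, g k := by
        rw [Finset.mul_sum, Finset.mul_sum, ← Finset.sum_add_distrib]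
        exact Finset.sum_le_sum fun k _ => hrec k
      have h3 : ∑ k ∈ Finset.range (N + 1), g k = ∑ k ∈ Finset.range N, g (k + 1) + 1 := by
        rw [Finset.sum_range_succ', hg00]
      rw [h3] at i2
      rw [zero_add, hg1]
      have hS : ∑ k ∈ Finset.range N, g k ≤ 1 / (1 - x) := i1
      have ha0 : 0 ≤ |(a : ℝ)| * T := by positivity
      have hb0 : 0 ≤ |(b : ℝ)| * T ^ 2 := by positivity
      have e1 : 1 + x * (1 / (1 - x)) = 1 / (1 - x) := by field_simp; ring
      have h5 : |(a : ℝ)| * T * (∑ k ∈ Finset.range N, g (k + 1) + 1) ≤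
          |(a : ℝ)| * T * (1 / (1 - x)) := mul_le_mul_of_nonneg_left i2 ha0
      have h6 : |(b : ℝ)| * T ^ 2 * ∑ k ∈ Finset.range N, g k ≤
          |(b : ℝ)| * T ^ 2 * (1 / (1 - x)) := mul_le_mul_of_nonneg_left hS hb0
      have h7 : (|(a : ℝ)| * T + |(b : ℝ)| * T ^ 2) * (1 / (1 - x)) ≤ x * (1 / (1 - x)) := by
        gcongr
      linarith
  exact (key N).1

lemma summable_inv {a b : ℤ} {T x : ℝ} (hT : 0 ≤ T)
    (hx : |(a : ℝ)| * T + |(b : ℝ)| * T ^ 2 ≤ x) (hx1 : x < 1) :
    Summable (fun k => |((inv a b).coeff k : ℝ)| * T ^ k) ∧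
      ∑' k, |((inv a b).coeff k : ℝ)| * T ^ k ≤ 1 / (1 - x) := by
  have h : Summable (fun k => |((inv a b).coeff k : ℝ)| * T ^ k) :=
    summable_of_sum_range_le (fun k => by positivity) (sum_inv_le hT hx hx1)
  exact ⟨h, h.tsum_le_of_sum_range_le (sum_inv_le hT hx hx1)⟩

/-- The value of the inverse power series. -/
lemma hasSum_inv {a b : ℤ} {T : ℂ} {x : ℝ}
    (hx : |(a : ℝ)| * ‖T‖ + |(b : ℝ)| * ‖T‖ ^ 2 ≤ x) (hx1 : x < 1) :
    HasSum (fun k => ((inv a b).coeff k : ℂ) * T ^ k) (1 - (a * T - b * T ^ 2))⁻¹ := by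
  have hs : Summable (fun k => ((inv a b).coeff k : ℂ) * T ^ k) := by
    refine Summable.of_norm ?_
    refine (summable_inv (norm_nonneg T) hx hx1).1.congr fun k => ?_
    rw [norm_mul, norm_pow, Complex.norm_intCast]
  set G : ℂ := ∑' k, ((inv a b).coeff k : ℂ) * T ^ k with hG
  set g : ℕ → ℂ := fun k => ((inv a b).coeff k : ℂ) * T ^ k with hg
  have hs1 : Summable fun k => g (k + 1) := (summable_nat_add_iff 1).mpr hs
  have hs2 : Summable fun k => g (k + 2) := (summable_nat_add_iff 2).mpr hs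
  have hg0 : g 0 = 1 := by simp [hg, coeff_inv_zero]
  have hg1 : g 1 = a * T := by simp [hg, coeff_inv_one]
  have e1 : G = 1 + ∑' k, g (k + 1) := by
    rw [hG, hs.tsum_eq_zero_add, hg0]
  have e2 : ∑' k, g (k + 1) = a * T + ∑' k, g (k + 2) := by
    rw [hs1.tsum_eq_zero_add, zero_add, hg1]
  have e3 : ∑' k, g (k + 2) = a * T * ∑' k, g (k + 1) - b * T ^ 2 * G := by
    rw [hG, ← tsum_mul_left, ← tsum_mul_left, ← Summable.tsum_sub (hs1.mul_left _) (hs.mul_left _)]
    refine tsum_congr fun k => ?_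
    simp only [hg]
    rw [coeff_inv_add_two]
    push_cast
    ring
  have e4 : G = (1 - (a * T - b * T ^ 2))⁻¹ := by
    apply eq_inv_of_mul_eq_one_left
    have e5 : ∑' k, g (k + 1) = G - 1 := by rw [e1]; ring
    rw [e5] at e3
    rw [e3, e5] at e2
    linear_combination e2
  rw [← e4]
  exact hs.hasSum

end Pool.Agent.Lib.MP_bf61d2_nt
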