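import Pool.Agent.Lib.MP_bf61d2_nt.Analytic

set_option autoImplicit false

/-!
The logarithm of the L-series near the line `re s = 3/2`.
-/

namespace Pool.Agent.Lib.MP_bf61d2_nt

open Filter Topology NumberField IsDedekindDomain ArithmeticFunction

variable {K : Type*} [Field K] [NumberField K] (W : WeierstrassCurve K)
  (v : HeightOneSpectrum (𝓞 K))

open Classical in
/-- The normalised trace at the odd places of degree one. -/
noncomputable def cc : ℝ :=
  if pr v ≠ 2 ∧ nm v = pr v then (tr W v : ℝ) / Real.sqrt (nm v) else 0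

lemma abs_cc_le : |cc W v| ≤ 2 := by
  unfold cc
  split_ifs with h
  · obtain ⟨-, -, -, ha⟩ := lp_eq W v
    have ha' : ((tr W v : ℝ)) ^ 2 ≤ 4 * nm v := by exact_mod_cast ha h.1
    have hq := nm_pos v
    have hs : 0 < Real.sqrt (nm v) := Real.sqrt_pos.mpr hq
    rw [abs_div, abs_of_pos hs, div_le_iff₀ hs]
    apply abs_le_of_sq_le_sq _ (by positivity)
    rw [mul_pow, Real.sq_sqrt hq.le]
    linarith
  · simp

/-- The logarithm of the local factor. -/
noncomputable def lam (s : ℂ) : ℂ := -Complex.log (1 - zv W v s)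

/-- The remainder. -/
noncomputable def rho (s : ℂ) : ℂ := lam W v s - cc W v * (nm v : ℂ) ^ (-(s - 1 / 2))

lemma norm_zv_lt {s : ℂ} (hs : 3 / 2 ≤ s.re) : ‖zv W v s‖ ≤ 24 / 25 :=
  (norm_zv_le W v s).trans (xi_le W v hs)

lemma norm_lam_sub_le {s : ℂ} (hs : 3 / 2 ≤ s.re) :
    ‖lam W v s - zv W v s‖ ≤ 25 / 2 * ‖zv W v s‖ ^ 2 := by
  have h1 := norm_zv_lt W v hs
  have h2 := Complex.norm_log_one_add_sub_self_le (z := -zv W v s) (by rw [norm_neg]; linarith)
  rw [norm_neg] at h2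
  have e : lam W v s - zv W v s = -(Complex.log (1 + -zv W v s) - -zv W v s) := by
    rw [lam, sub_eq_add_neg 1]; ring
  rw [e, norm_neg]
  refine h2.trans ?_
  have h3 : (1 - ‖zv W v s‖)⁻¹ ≤ 25 := by
    rw [inv_le_comm₀ (by linarith) (by norm_num)]
    linarith
  have h4 : 0 ≤ ‖zv W v s‖ ^ 2 := by positivity
  nlinarith

lemma norm_lam_le {s : ℂ} (hs : 3 / 2 ≤ s.re) : ‖lam W v s‖ ≤ 14 * xi W v s.re := by
  have h1 := norm_lam_sub_le W v hs
  have h2 := norm_zv_lt W v hs
  have h3 := norm_zv_le W v s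
  have h4 : ‖lam W v s‖ ≤ ‖lam W v s - zv W v s‖ + ‖zv W v s‖ := by
    have := norm_add_le (lam W v s - zv W v s) (zv W v s)
    rwa [sub_add_cancel] at this
  have h5 := norm_nonneg (zv W v s)
  nlinarith

lemma sqrt_cpow (s : ℂ) : (nm v : ℂ) ^ (-s) =
    (1 / Real.sqrt (nm v) : ℝ) * (nm v : ℂ) ^ (-(s - 1 / 2)) := by
  have h0 : (nm v : ℂ) ≠ 0 := by
    have := nm_pos v
    exact_mod_cast this.ne'
  have e1 : ((1 / Real.sqrt (nm v) : ℝ) : ℂ) = (nm v : ℂ) ^ (-(1 / 2) : ℂ) := by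
    rw [Real.sqrt_eq_rpow, one_div, ← Real.rpow_neg (nm_pos v).le,
      Complex.ofReal_cpow (nm_pos v).le]
    push_cast
    rfl
  rw [e1, ← Complex.cpow_add _ _ h0]
  congr 1
  ring

lemma norm_rho_le {s : ℂ} (hs : 3 / 2 ≤ s.re) : ‖rho W v s‖ ≤ 150 / (pr v : ℝ) ^ 2 := by
  have hp0 : (0 : ℝ) < pr v := by exact_mod_cast (pr_prime v).pos
  have hq := nm_pos v
  by_cases hp : pr v = 2
  · have e : rho W v s = lam W v s := by
      rw [rho, cc, if_neg (by simp [hp])]; simp
    rw [e, hp]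
    have h1 := norm_lam_le W v hs
    have h2 := xi_le W v hs
    have h3 : (150 : ℝ) / ((2 : ℕ) : ℝ) ^ 2 = 75 / 2 := by norm_num
    rw [h3]
    linarith
  · obtain ⟨h1, -⟩ := xi_le_of_odd W v hp hs
    have h2 := wt_le v hs
    have hw := wt_pos v s.re
    have hz : ‖zv W v s‖ ≤ 3 / nm v := by
      calc ‖zv W v s‖ ≤ xi W v s.re := norm_zv_le W v s
        _ ≤ 3 * wt v s.re := h1
        _ ≤ 3 * (1 / nm v) := by gcongr
        _ = 3 / nm v := by ring
    by_cases hd : nm v = pr v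
    · have e : rho W v s = (lam W v s - zv W v s) - bb W v * ((nm v : ℂ) ^ (-s)) ^ 2 := by
        have e1 : (cc W v : ℂ) * (nm v : ℂ) ^ (-(s - 1 / 2)) = tr W v * (nm v : ℂ) ^ (-s) := by
          rw [sqrt_cpow v s, cc, if_pos ⟨hp, hd⟩]
          push_cast
          ring
        rw [rho, e1, zv]; ring
      rw [e]
      have h4 : ‖(bb W v : ℂ) * ((nm v : ℂ) ^ (-s)) ^ 2‖ ≤ 1 / (nm v : ℝ) ^ 2 := by
        rw [norm_mul, norm_pow, norm_cpow, Complex.norm_intCast]
        refine (bb_term_le W v s.re).trans ?_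
        calc wt v s.re ^ 2 ≤ (1 / nm v) ^ 2 := pow_le_pow_left₀ hw.le h2 2
          _ = 1 / (nm v : ℝ) ^ 2 := by ring
      have h5 : ‖lam W v s - zv W v s‖ ≤ 225 / 2 / (nm v : ℝ) ^ 2 := by
        refine (norm_lam_sub_le W v hs).trans ?_
        calc 25 / 2 * ‖zv W v s‖ ^ 2 ≤ 25 / 2 * (3 / nm v) ^ 2 := by gcongr
          _ = 225 / 2 / (nm v : ℝ) ^ 2 := by ring
      rw [← hd]
      calc _ ≤ ‖lam W v s - zv W v s‖ + ‖(bb W v : ℂ) * ((nm v : ℂ) ^ (-s)) ^ 2‖ :=
            norm_sub_le _ _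
        _ ≤ 225 / 2 / (nm v : ℝ) ^ 2 + 1 / (nm v : ℝ) ^ 2 := add_le_add h5 h4
        _ ≤ 150 / (nm v : ℝ) ^ 2 := by
            rw [← add_div]
            gcongr
            norm_num
    · have e : rho W v s = lam W v s := by
        rw [rho, cc, if_neg (by tauto)]; simp
      rw [e]
      have h3 : ((pr v : ℝ)) ^ 2 ≤ nm v := by exact_mod_cast sq_pr_le_nm v hd
      calc ‖lam W v s‖ ≤ 14 * xi W v s.re := norm_lam_le W v hs
        _ ≤ 14 * (3 * (1 / nm v)) := by
            have : xi W v s.re ≤ 3 * (1 / nm v) := h1.trans (by gcongr)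
            gcongr
        _ = 42 / nm v := by ring
        _ ≤ 150 / (pr v : ℝ) ^ 2 := by
            gcongr
            norm_num

lemma continuousOn_rho : ContinuousOn (rho W v) {s | 3 / 2 ≤ s.re} := by
  have h0 : (nm v : ℂ) ≠ 0 := by
    have := nm_pos v
    exact_mod_cast this.ne'
  have hc : ∀ g : ℂ → ℂ, Continuous g → Continuous fun s => (nm v : ℂ) ^ (g s) := fun g hg => by
    exact hg.const_cpow (Or.inl h0)
  have hz : Continuous (zv W v) := by
    unfold zv
    have := hc (fun s => -s) (by fun_prop)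
    fun_prop
  unfold rho lam
  refine ContinuousOn.sub (ContinuousOn.neg ?_) ?_
  · refine ContinuousOn.clog (by fun_prop) fun s hs => ?_
    have h1 := norm_zv_lt W v hs
    rw [sub_eq_add_neg]
    exact Complex.mem_slitPlane_of_norm_lt_one (by rw [norm_neg]; linarith)
  · exact (continuous_const.mul (hc _ (by fun_prop))).continuousOn

lemma summable_bound : Summable fun v : HeightOneSpectrum (𝓞 K) => 150 / (pr v : ℝ) ^ 2 := by
  have h1 : Summable fun n : ℕ => 150 / (n : ℝ) ^ 2 := by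
    have := (Real.summable_one_div_nat_pow.mpr (by norm_num : 1 < 2)).mul_left 150
    refine this.congr fun n => by ring
  exact summable_pr (h := fun n : ℕ => 150 / (n : ℝ) ^ 2) (fun n => by positivity) h1

/-- The remainder function. -/
noncomputable def Rem (s : ℂ) : ℂ := ∑' v, rho W v s

lemma continuousOn_Rem : ContinuousOn (Rem W) {s | 3 / 2 ≤ s.re} :=
  continuousOn_tsum (fun v => continuousOn_rho W v) summable_bound
    fun v s hs => norm_rho_le W v hs

lemma norm_Rem_le {s : ℂ} (hs : 3 / 2 ≤ s.re) :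
    ‖Rem W s‖ ≤ ∑' v : HeightOneSpectrum (𝓞 K), 150 / (pr v : ℝ) ^ 2 :=
  tsum_of_norm_bounded summable_bound.hasSum fun v => norm_rho_le W v hs

lemma summable_rho {s : ℂ} (hs : 3 / 2 ≤ s.re) : Summable fun v => rho W v s :=
  Summable.of_norm_bounded summable_bound fun v => norm_rho_le W v hs

lemma summable_lam {s : ℂ} (hs : 3 / 2 < s.re) : Summable fun v => lam W v s :=
  Summable.of_norm_bounded ((summable_xi W hs).mul_left 14) fun v => norm_lam_le W v hs.le

/-- The L-series as an exponential. -/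
theorem lseries_eq_exp {s : ℂ} (hs : 3 / 2 < s.re) :
    W.LSeries s = Complex.exp (∑' v, lam W v s) := by
  have h1 := (lseries_euler W hs).2
  have h2 : Tendsto (fun S : Finset (HeightOneSpectrum (𝓞 K)) =>
      Complex.exp (∑ v ∈ S, lam W v s)) atTop (𝓝 (Complex.exp (∑' v, lam W v s))) :=
    (Complex.continuous_exp.tendsto _).comp (summable_lam W hs).hasSum
  have e : ∀ S : Finset (HeightOneSpectrum (𝓞 K)),
      Complex.exp (∑ v ∈ S, lam W v s) = ∏ v ∈ S, (1 - zv W v s)⁻¹ := by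
    intro S
    rw [Complex.exp_sum]
    refine Finset.prod_congr rfl fun v _ => ?_
    have h3 := norm_zv_lt W v hs.le
    have hne : 1 - zv W v s ≠ 0 := by
      intro h
      have : ‖(1 : ℂ)‖ = ‖zv W v s‖ := by rw [sub_eq_zero.mp h]
      rw [norm_one] at this
      linarith
    rw [lam, Complex.exp_neg, Complex.exp_log hne]
  simp_rw [e] at h2
  exact tendsto_nhds_unique h1 h2

/-- The coefficients at rational primes. -/
noncomputable def cp (n : ℕ) : ℝ := ∑' v : (nm (K := K)) ⁻¹' {n}, cc W v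

lemma finite_fiber (n : ℕ) : ((nm (K := K)) ⁻¹' {n}).Finite :=
  (Ring.HasFiniteQuotients.finite_absNorm_heightOneSpectrum_le (R := 𝓞 K) n).subset
    fun v hv => le_of_eq hv

lemma cp_eq_zero {n : ℕ} (hn : ¬ (n.Prime ∧ n ≠ 2)) : cp W n = 0 := by
  rw [cp]
  have : ∀ v : (nm (K := K)) ⁻¹' {n}, cc W (v : HeightOneSpectrum (𝓞 K)) = 0 := by
    rintro ⟨v, hv⟩
    rw [cc, if_neg]
    rintro ⟨h1, h2⟩
    have hv' : nm v = n := hv
    apply hn
    rw [← hv', h2]
    exact ⟨pr_prime v, h1⟩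
  simp_rw [this]
  exact tsum_zero

/-- The number of places of norm `n`. -/
noncomputable def rr (K : Type*) [Field K] [NumberField K] (n : ℕ) : ℕ :=
  Nat.card ((nm (K := K)) ⁻¹' {n})

lemma abs_cp_le (n : ℕ) : |cp W n| ≤ 2 * rr K n := by
  classical
  have := (finite_fiber (K := K) n).to_subtype
  have := Fintype.ofFinite ((nm (K := K)) ⁻¹' {n})
  rw [cp, tsum_fintype, rr, Nat.card_eq_fintype_card]
  calc |∑ v : (nm (K := K)) ⁻¹' {n}, cc W v| ≤ ∑ v : (nm (K := K)) ⁻¹' {n}, |cc W v| :=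
        Finset.abs_sum_le_sum_abs _ _
    _ ≤ ∑ _v : (nm (K := K)) ⁻¹' {n}, 2 := Finset.sum_le_sum fun v _ => abs_cc_le W v
    _ = _ := by rw [Finset.sum_const, nsmul_eq_mul, mul_comm]; rfl

lemma rr_le {p : ℕ} (hp : p.Prime) : rr K p ≤ Module.finrank ℚ K := by
  classical
  rw [rr, Nat.card_coe_set_eq, Set.ncard_eq_toFinset_card _ (finite_fiber p)]
  refine card_above_le p _ fun v hv => ?_
  have hv' : nm v = p := by simpa using hv
  obtain ⟨f, hf, h⟩ := nm_eq v
  rw [hv'] at h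
  exact ((Nat.prime_dvd_prime_iff_eq (pr_prime v) hp).mp (by rw [h]; exact dvd_pow_self _ (by omega)))

lemma hasSum_cp {w : ℂ} (hw : 1 < w.re) :
    LSeriesHasSum (fun n => (cp W n : ℂ)) w (∑' v, cc W v * (nm v : ℂ) ^ (-w)) := by
  have hsum : Summable fun v => (cc W v : ℂ) * (nm v : ℂ) ^ (-w) := by
    have h1 : Summable fun n : ℕ => 2 * (n : ℝ) ^ (-w.re) :=
      (Real.summable_nat_rpow.mpr (by linarith)).mul_left _
    have h2 := summable_pr (K := K) (fun n => by positivity) h1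
    refine Summable.of_norm_bounded h2 fun v => ?_
    rw [norm_mul, Complex.norm_real, norm_cpow]
    have hp0 : (0 : ℝ) < pr v := by exact_mod_cast (pr_prime v).pos
    have h3 : (nm v : ℝ) ^ (-w.re) ≤ (pr v : ℝ) ^ (-w.re) :=
      Real.rpow_le_rpow_of_nonpos hp0 (by exact_mod_cast pr_le_nm v) (by linarith)
    exact mul_le_mul (abs_cc_le W v) h3 (by positivity) (by norm_num)
  have h := hsum.hasSum.tsum_fiberwise nm
  have e : (LSeries.term (fun n => (cp W n : ℂ)) w) =
      fun n => ∑' v : (nm (K := K)) ⁻¹' {n}, (cc W v : ℂ) * (nm (v : HeightOneSpectrum (𝓞 K)) : ℂ) ^ (-w) := by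
    ext n
    have h3 : ∑' v : (nm (K := K)) ⁻¹' {n}, (cc W v : ℂ) *
        (nm (v : HeightOneSpectrum (𝓞 K)) : ℂ) ^ (-w) = (cp W n : ℂ) * (n : ℂ) ^ (-w) := by
      rw [cp, Complex.ofReal_tsum, ← tsum_mul_right]
      refine tsum_congr fun v => ?_
      have hv : nm (v : HeightOneSpectrum (𝓞 K)) = n := v.2
      rw [hv]
    rw [h3, LSeries.term_def]
    split_ifs with h0
    · rw [h0, cp_eq_zero W (by rintro ⟨h4, -⟩; exact Nat.not_prime_zero h4)]; simp
    · rw [Complex.cpow_neg, div_eq_mul_inv]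
  rw [LSeriesHasSum, e]
  exact h

theorem structure_formula {s : ℂ} (hs : 3 / 2 < s.re) :
    W.LSeries s = Complex.exp (LSeries (fun n => (cp W n : ℂ)) (s - 1 / 2) + Rem W s) := by
  have hre : 1 < (s - 1 / 2).re := by
    have : (s - 1 / 2).re = s.re - 1 / 2 := by simp
    rw [this]; linarith
  rw [lseries_eq_exp W hs, (hasSum_cp W hre).LSeries_eq, Rem]
  congr 1
  have hsum : Summable fun v => (cc W v : ℂ) * (nm v : ℂ) ^ (-(s - 1 / 2)) := by
    refine ((summable_lam W hs).sub (summable_rho W hs.le)).congr fun v => ?_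
    rw [rho]; ring
  rw [← hsum.tsum_add (summable_rho W hs.le)]
  refine tsum_congr fun v => ?_
  rw [rho]; ring

end Pool.Agent.Lib.MP_bf61d2_nt
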