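import Pool.Agent.Lib.MP_bf61d2_nt.Model

set_option autoImplicit false

/-!
Quadratic twists and traces of Frobenius.
-/

namespace Pool.Agent.Lib.MP_bf61d2_nt

open WeierstrassCurve WeierstrassCurve.Affine

section Finite

variable {F : Type*} [Field F] [Fintype F] [DecidableEq F]

lemma card_short_curve (h2 : ringChar F ≠ 2) (A B : F)
    (hell : (⟨0, 0, 0, A, B⟩ : WeierstrassCurve F).IsElliptic) :
    (Nat.card (⟨0, 0, 0, A, B⟩ : WeierstrassCurve F).toAffine.Point : ℤ) =
      Fintype.card F + 1 + ∑ x : F, quadraticChar F (x ^ 3 + A * x + B) := by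
  set W : WeierstrassCurve F := ⟨0, 0, 0, A, B⟩ with hW
  have e1 := Nat.card_congr (pointEquiv W.toAffine)
  have h6 : Nat.card (WithZero {xy : F × F // W.toAffine.Equation xy.1 xy.2}) =
      Nat.card {xy : F × F // W.toAffine.Equation xy.1 xy.2} + 1 := Finite.card_option
  rw [e1, h6]
  have h7 : Nat.card {xy : F × F // W.toAffine.Equation xy.1 xy.2} =
      ∑ x : F, Nat.card {y : F // W.toAffine.Equation x y} := by
    rw [← Nat.card_sigma]
    refine Nat.card_congr
      { toFun := fun p => ⟨p.1.1, ⟨p.1.2, p.2⟩⟩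
        invFun := fun p => ⟨(p.1, p.2.1), p.2.2⟩
        left_inv := fun p => rfl
        right_inv := fun p => rfl }
  have h8 : ∀ x : F, (Nat.card {y : F // W.toAffine.Equation x y} : ℤ) =
      quadraticChar F (x ^ 3 + A * x + B) + 1 := by
    intro x
    rw [← quadraticChar_card_sqrts h2, Set.toFinset_card, ← Nat.card_eq_fintype_card]
    congr 1
    refine Nat.card_congr (Equiv.subtypeEquivRight fun y => ?_)
    rw [equation_iff]
    simp only [hW]
    change _ ↔ y ^ 2 = x ^ 3 + A * x + B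
    constructor
    · intro h; linear_combination h
    · intro h; linear_combination h
  rw [h7]
  push_cast
  rw [Finset.sum_congr rfl fun x _ => h8 x, Finset.sum_add_distrib, Finset.sum_const,
    nsmul_eq_mul, mul_one, Finset.card_univ]
  ring

lemma card_twist (h2 : ringChar F ≠ 2) (A B D : F) (hD : D ≠ 0)
    (hell : (⟨0, 0, 0, A, B⟩ : WeierstrassCurve F).IsElliptic)
    (hell' : (⟨0, 0, 0, A * D ^ 2, B * D ^ 3⟩ : WeierstrassCurve F).IsElliptic) :
    (Fintype.card F : ℤ) + 1 -
      Nat.card (⟨0, 0, 0, A * D ^ 2, B * D ^ 3⟩ : WeierstrassCurve F).toAffine.Point =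
      quadraticChar F D * ((Fintype.card F : ℤ) + 1 -
        Nat.card (⟨0, 0, 0, A, B⟩ : WeierstrassCurve F).toAffine.Point) := by
  rw [card_short_curve h2 _ _ hell, card_short_curve h2 _ _ hell']
  have e : ∑ x : F, quadraticChar F (x ^ 3 + A * D ^ 2 * x + B * D ^ 3) =
      quadraticChar F D * ∑ x : F, quadraticChar F (x ^ 3 + A * x + B) := by
    rw [Finset.mul_sum, ← Equiv.sum_comp (Equiv.mulLeft₀ D hD)]
    refine Finset.sum_congr rfl fun x _ => ?_
    have e2 : (Equiv.mulLeft₀ D hD) x = D * x := rfl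
    rw [e2]
    have e3 : (D * x) ^ 3 + A * D ^ 2 * (D * x) + B * D ^ 3 = D ^ 2 * (D * (x ^ 3 + A * x + B)) := by
      ring
    rw [e3, map_mul, map_mul, quadraticChar_sq_one' hD, one_mul]
  rw [e]
  ring

end Finite

section Global

open NumberField IsDedekindDomain IsDedekindDomain.HeightOneSpectrum IsLocalRing

variable {K : Type*} [Field K] [NumberField K] (v : HeightOneSpectrum (𝓞 K))

lemma isUnit_algebraMap {x : 𝓞 K} (hx : x ∉ v.asIdeal) :
    IsUnit (algebraMap (𝓞 K) (v.adicCompletionIntegers K) x) := by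
  by_contra hcon
  have h : algebraMap (𝓞 K) (v.adicCompletionIntegers K) x ∈
      maximalIdeal (v.adicCompletionIntegers K) := (mem_maximalIdeal _).mpr hcon
  rw [← residue_eq_zero_iff] at h
  exact hx ((red_eq_zero_iff v x).mp h)

/-- The trace of Frobenius of a curve with a good integral model. -/
theorem tr_of_good {W : WeierstrassCurve K} (W₀ : WeierstrassCurve (𝓞 K)) (C : VariableChange K)
    (hC : W = C • W₀.map (algebraMap (𝓞 K) K)) (hΔ : W₀.Δ ∉ v.asIdeal)
    (h2 : (2 : 𝓞 K) ∉ v.asIdeal) (h3 : (3 : 𝓞 K) ∉ v.asIdeal) :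
    tr W v = (nm v : ℤ) + 1 - Nat.card (W₀.map (red v)).toAffine.Point := by
  have hcard : Nat.card (IsLocalRing.ResidueField (v.adicCompletionIntegers K)) = nm v :=
    card_residue v
  have h := localPolynomial_of_good (v.adicCompletionIntegers K) (F := v.adicCompletion K)
    (W := W.baseChange (v.adicCompletion K))
    (W₀.map (algebraMap (𝓞 K) (v.adicCompletionIntegers K)))
    (C.map (algebraMap K (v.adicCompletion K)))
    (by
      rw [hC, WeierstrassCurve.baseChange, ← map_variableChange, map_map, map_map]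
      rfl)
    (by
      rw [map_Δ]
      exact isUnit_algebraMap v hΔ)
    (by
      have := isUnit_algebraMap v h2
      rwa [map_ofNat] at this)
    (by
      have := isUnit_algebraMap v h3
      rwa [map_ofNat] at this)
  rw [map_map, hcard] at h
  rw [tr, lp, h, coeff_quad_one, neg_neg]
  rfl

/-- The quadratic character at a place. -/
noncomputable def chi (e : 𝓞 K) : ℤ := by
  classical
  letI := Fintype.ofFinite (ResidueField (v.adicCompletionIntegers K))
  exact quadraticChar (ResidueField (v.adicCompletionIntegers K)) (red v e)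

lemma chi_mul (e f : 𝓞 K) : chi v (e * f) = chi v e * chi v f := by
  classical
  unfold chi
  rw [map_mul, map_mul]

lemma abs_chi_le (e : 𝓞 K) : |chi v e| ≤ 1 := by
  classical
  let := Fintype.ofFinite (ResidueField (v.adicCompletionIntegers K))
  unfold chi
  by_cases h : red v e = 0
  · rw [h]; simp
  · rcases quadraticChar_dichotomy h with h1 | h1
    · rw [h1]; simp
    · rw [h1]; simp

lemma chi_eq_one_or {e : 𝓞 K} (he : e ∉ v.asIdeal) : chi v e = 1 ∨ chi v e = -1 := by
  classical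
  let := Fintype.ofFinite (ResidueField (v.adicCompletionIntegers K))
  exact quadraticChar_dichotomy (fun h => he ((red_eq_zero_iff v e).mp h))

/-- The character detects squares. -/
lemma chi_eq_one_iff {e : 𝓞 K} (he : e ∉ v.asIdeal) :
    chi v e = 1 ↔ ∃ x : 𝓞 K, e - x ^ 2 ∈ v.asIdeal := by
  classical
  let := Fintype.ofFinite (ResidueField (v.adicCompletionIntegers K))
  have h0 : red v e ≠ 0 := fun h => he ((red_eq_zero_iff v e).mp h)
  unfold chi
  rw [quadraticChar_one_iff_isSquare h0]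
  constructor
  · rintro ⟨y, hy⟩
    obtain ⟨x, rfl⟩ := red_surjective v y
    refine ⟨x, ?_⟩
    rw [← red_eq_zero_iff, map_sub, map_pow, hy]
    ring
  · rintro ⟨x, hx⟩
    rw [← red_eq_zero_iff, map_sub, map_pow, sub_eq_zero] at hx
    exact ⟨red v x, by rw [hx]; ring⟩

lemma ringChar_residue_ne_two (h2 : (2 : 𝓞 K) ∉ v.asIdeal) :
    ringChar (ResidueField (v.adicCompletionIntegers K)) ≠ 2 := by
  intro h
  apply h2
  rw [← red_eq_zero_iff, map_ofNat]
  have := ringChar.Nat.cast_ringChar (R := ResidueField (v.adicCompletionIntegers K))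
  rw [h] at this
  exact_mod_cast this

/-- Traces of quadratic twists. -/
theorem tr_twist {A B e : 𝓞 K} {W W' : WeierstrassCurve K} (C C' : VariableChange K)
    (hC : W = C • (⟨0, 0, 0, A, B⟩ : WeierstrassCurve (𝓞 K)).map (algebraMap (𝓞 K) K))
    (hC' : W' = C' • (⟨0, 0, 0, A * e ^ 2, B * e ^ 3⟩ : WeierstrassCurve (𝓞 K)).map
      (algebraMap (𝓞 K) K))
    (hΔ : (⟨0, 0, 0, A, B⟩ : WeierstrassCurve (𝓞 K)).Δ ∉ v.asIdeal) (he : e ∉ v.asIdeal)
    (h2 : (2 : 𝓞 K) ∉ v.asIdeal) (h3 : (3 : 𝓞 K) ∉ v.asIdeal) :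
    tr W' v = chi v e * tr W v := by
  classical
  let := Fintype.ofFinite (ResidueField (v.adicCompletionIntegers K))
  have hprime : v.asIdeal.IsPrime := v.isPrime
  have hΔe : (⟨0, 0, 0, A * e ^ 2, B * e ^ 3⟩ : WeierstrassCurve (𝓞 K)).Δ =
      e ^ 6 * (⟨0, 0, 0, A, B⟩ : WeierstrassCurve (𝓞 K)).Δ := by
    simp only [Δ, b₂, b₄, b₆, b₈]
    ring
  have hΔ' : (⟨0, 0, 0, A * e ^ 2, B * e ^ 3⟩ : WeierstrassCurve (𝓞 K)).Δ ∉ v.asIdeal := by
    rw [hΔe]
    intro h
    rcases hprime.mem_or_mem h with h | h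
    · exact he (hprime.mem_of_pow_mem 6 h)
    · exact hΔ h
  rw [tr_of_good v _ C hC hΔ h2 h3, tr_of_good v _ C' hC' hΔ' h2 h3]
  have hcard : Fintype.card (IsLocalRing.ResidueField (v.adicCompletionIntegers K)) = nm v := by
    rw [← Nat.card_eq_fintype_card]; exact card_residue v
  have e1 : (⟨0, 0, 0, A, B⟩ : WeierstrassCurve (𝓞 K)).map (red v) =
      ⟨0, 0, 0, red v A, red v B⟩ := by
    ext <;> simp
  have e2 : (⟨0, 0, 0, A * e ^ 2, B * e ^ 3⟩ : WeierstrassCurve (𝓞 K)).map (red v) =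
      ⟨0, 0, 0, red v A * red v e ^ 2, red v B * red v e ^ 3⟩ := by
    ext <;> simp
  have hell1 : ((⟨0, 0, 0, A, B⟩ : WeierstrassCurve (𝓞 K)).map (red v)).IsElliptic := by
    refine ⟨?_⟩
    rw [map_Δ, isUnit_iff_ne_zero]
    exact fun h => hΔ ((red_eq_zero_iff v _).mp h)
  have hell2 : ((⟨0, 0, 0, A * e ^ 2, B * e ^ 3⟩ : WeierstrassCurve (𝓞 K)).map
      (red v)).IsElliptic := by
    refine ⟨?_⟩
    rw [map_Δ, isUnit_iff_ne_zero]
    exact fun h => hΔ' ((red_eq_zero_iff v _).mp h)
  rw [e1] at hell1 ⊢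
  rw [e2] at hell2 ⊢
  have h := card_twist (ringChar_residue_ne_two v h2) (red v A) (red v B) (red v e)
    (fun h => he ((red_eq_zero_iff v e).mp h)) hell1 hell2
  rw [hcard] at h
  exact h

end Global

end Pool.Agent.Lib.MP_bf61d2_nt
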