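import Pool.Agent.Lib.MP_bf61d2_nt.XCoord

set_option autoImplicit false

/-!
Unimodular triples over `F[X]` and the degree bookkeeping for the parallelogram law.
-/

namespace Pool.Agent.Lib.MP_bf61d2_nt

open WeierstrassCurve Polynomial

/-- A triple generating the unit ideal. -/
def Uni {R : Type*} [CommRing R] (a b c : R) : Prop := ∃ u v w : R, u * a + v * b + w * c = 1

lemma uni_iff {R : Type*} [CommRing R] (a b c : R) :
    Uni a b c ↔ ∀ M : Ideal R, M.IsMaximal → a ∈ M → b ∈ M → c ∈ M → False := by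
  constructor
  · rintro ⟨u, v, w, h⟩ M hM ha hb hc
    apply hM.ne_top
    rw [Ideal.eq_top_iff_one, ← h]
    exact M.add_mem (M.add_mem (M.mul_mem_left _ ha) (M.mul_mem_left _ hb)) (M.mul_mem_left _ hc)
  · intro h
    have h1 : Ideal.span {a, b, c} = ⊤ := by
      by_contra hne
      obtain ⟨M, hM, hle⟩ := Ideal.exists_le_maximal _ hne
      refine h M hM (hle (Ideal.subset_span ?_)) (hle (Ideal.subset_span ?_))
        (hle (Ideal.subset_span ?_)) <;> simp
    have h2 : (1 : R) ∈ Ideal.span {a, b, c} := by rw [h1]; trivial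
    obtain ⟨u, v, w, h3⟩ := Submodule.mem_span_triple.mp h2
    exact ⟨u, v, w, by simpa using h3⟩

lemma uni_prod {R : Type*} [CommRing R] {f₁ g₁ f₂ g₂ : R} (h1 : IsCoprime f₁ g₁)
    (h2 : IsCoprime f₂ g₂) : Uni (f₁ * f₂) (f₁ * g₂ + f₂ * g₁) (g₁ * g₂) := by
  rw [uni_iff]
  intro M hM ha hb hc
  have hp := hM.isPrime
  have hcop : ∀ f g : R, IsCoprime f g → f ∈ M → g ∈ M → False := by
    rintro f g ⟨u, v, h⟩ hf hg
    apply hM.ne_top
    rw [Ideal.eq_top_iff_one, ← h]
    exact M.add_mem (M.mul_mem_left _ hf) (M.mul_mem_left _ hg)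
  rcases hp.mem_or_mem ha with hf | hf
  · have h3 : f₂ * g₁ ∈ M := by
      have := M.sub_mem hb (M.mul_mem_right g₂ hf)
      rwa [add_sub_cancel_left] at this
    rcases hp.mem_or_mem h3 with h4 | h4
    · rcases hp.mem_or_mem hc with h5 | h5
      · exact hcop _ _ h1 hf h5
      · exact hcop _ _ h2 h4 h5
    · exact hcop _ _ h1 hf h4
  · have h3 : f₁ * g₂ ∈ M := by
      have := M.sub_mem hb (M.mul_mem_right g₁ hf)
      rwa [add_sub_cancel_right] at this
    rcases hp.mem_or_mem h3 with h4 | h4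
    · rcases hp.mem_or_mem hc with h5 | h5
      · exact hcop _ _ h1 h4 h5
      · exact hcop _ _ h2 hf h5
    · exact hcop _ _ h2 hf h4

lemma uni_scale {R K : Type*} [CommRing R] [Field K] [Algebra R K] [FaithfulSMul R K]
    {a b c a' b' c' : R} (h : Uni a b c) (h' : Uni a' b' c') {k : K}
    (ha : algebraMap R K a = k * algebraMap R K a') (hb : algebraMap R K b = k * algebraMap R K b')
    (hc : algebraMap R K c = k * algebraMap R K c') :
    ∃ x : R, IsUnit x ∧ a = x * a' ∧ b = x * b' ∧ c = x * c' := by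
  obtain ⟨u, v, w, e⟩ := h
  obtain ⟨u', v', w', e'⟩ := h'
  have hinj : Function.Injective (algebraMap R K) := FaithfulSMul.algebraMap_injective R K
  set x := u' * a + v' * b + w' * c with hx
  set y := u * a' + v * b' + w * c' with hy
  have hxk : algebraMap R K x = k := by
    have h1 : algebraMap R K (u' * a' + v' * b' + w' * c') = 1 := by rw [e', map_one]
    rw [hx]
    simp only [map_add, map_mul] at h1 ⊢
    rw [ha, hb, hc]
    linear_combination k * h1
  have hyk : k * algebraMap R K y = 1 := by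
    have h1 : algebraMap R K (u * a + v * b + w * c) = 1 := by rw [e, map_one]
    rw [hy]
    simp only [map_add, map_mul] at h1 ⊢
    rw [ha, hb, hc] at h1
    linear_combination h1
  have hxy : x * y = 1 := hinj (by rw [map_mul, hxk, hyk, map_one])
  refine ⟨x, IsUnit.of_mul_eq_one y hxy, hinj ?_, hinj ?_, hinj ?_⟩
  · rw [map_mul, hxk, ha]
  · rw [map_mul, hxk, hb]
  · rw [map_mul, hxk, hc]

variable {F : Type*} [Field F]

lemma uni_T {W : WeierstrassCurve F} [W.IsElliptic] (h1 : W.a₁ = 0) (h3 : W.a₃ = 0) {f g : F[X]}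
    (hfg : IsCoprime f g) :
    Uni (T0 (C W.a₂) (C W.a₄) (C W.a₆) f g X 1) (T1 (C W.a₂) (C W.a₄) (C W.a₆) f g X 1)
      (T2 f g X 1) := by
  rw [uni_iff]
  intro M hM ha hb hc
  have hp := hM.isPrime
  have hcond := addSubMapCoeff_condition (W.map (C : F →+* F[X])) ![f * X, f + g * X, g]
  have hb2 : (W.map (C : F →+* F[X])).b₂ = 4 * C W.a₂ := by
    simp only [b₂, map_a₁, map_a₂, h1, map_zero]; ring
  have hb4 : (W.map (C : F →+* F[X])).b₄ = 2 * C W.a₄ := by
    simp only [b₄, map_a₁, map_a₃, map_a₄, h1, map_zero]; ring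
  have hb6 : (W.map (C : F →+* F[X])).b₆ = 4 * C W.a₆ := by
    simp only [b₆, map_a₃, map_a₆, h3, map_zero]; ring
  have hb8 : (W.map (C : F →+* F[X])).b₈ = 4 * C W.a₂ * C W.a₆ - C W.a₄ ^ 2 := by
    simp only [b₈, map_a₁, map_a₂, map_a₃, map_a₄, map_a₆, h1, h3, map_zero]; ring
  have hev : ∀ j : Fin 3, (addSubMap (W.map (C : F →+* F[X])) j).eval ![f * X, f + g * X, g] ∈ M := by
    intro j
    fin_cases j
    · have : (addSubMap (W.map (C : F →+* F[X])) 0).eval ![f * X, f + g * X, g] =
          T0 (C W.a₂) (C W.a₄) (C W.a₆) f g X 1 := by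
        simp only [addSubMap, T0, hb4, hb6, hb8, Matrix.cons_val_zero, Matrix.cons_val_one,
          Matrix.cons_val, map_sub, map_mul, map_pow, MvPolynomial.eval_X, MvPolynomial.eval_C]
        ring
      simpa [this] using ha
    · have : (addSubMap (W.map (C : F →+* F[X])) 1).eval ![f * X, f + g * X, g] =
          T1 (C W.a₂) (C W.a₄) (C W.a₆) f g X 1 := by
        simp only [addSubMap, T1, hb2, hb4, hb6, Matrix.cons_val_zero, Matrix.cons_val_one,
          Matrix.cons_val, map_add, map_mul, map_pow, MvPolynomial.eval_X, MvPolynomial.eval_C]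
        ring
      simpa [this] using hb
    · have : (addSubMap (W.map (C : F →+* F[X])) 2).eval ![f * X, f + g * X, g] =
          T2 f g X 1 := by
        simp only [addSubMap, T2, Matrix.cons_val_zero, Matrix.cons_val_one,
          Matrix.cons_val, map_sub, map_mul, map_pow, MvPolynomial.eval_X, MvPolynomial.eval_C]
        ring
      simpa [this] using hc
  have hx : ∀ i : Fin 3, (![f * X, f + g * X, g] : Fin 3 → F[X]) i ∈ M := by
    intro i
    apply hp.mem_of_pow_mem 4
    rw [← hcond i]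
    exact M.sum_mem fun j _ => M.mul_mem_left _ (hev j)
  have hg : g ∈ M := hx 2
  have hf : f ∈ M := by
    have h4 : f + g * X ∈ M := hx 1
    have := M.sub_mem h4 (M.mul_mem_right X hg)
    rwa [add_sub_cancel_right] at this
  obtain ⟨u, v, h⟩ := hfg
  apply hM.ne_top
  rw [Ideal.eq_top_iff_one, ← h]
  exact M.add_mem (M.mul_mem_left _ hf) (M.mul_mem_left _ hg)

end Pool.Agent.Lib.MP_bf61d2_nt
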