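import Mathlib

set_option autoImplicit false

/-!
The addition-subtraction formula on x-coordinates for curves `y² = x³ + a₂x² + a₄x + a₆`.
-/

namespace Pool.Agent.Lib.MP_bf61d2_nt

open WeierstrassCurve WeierstrassCurve.Affine

variable {K : Type*} [Field K]

/-- The three quadratic forms of the addition-subtraction map. -/
def T0 {R : Type*} [CommRing R] (a₂ a₄ a₆ X1 Z1 X2 Z2 : R) : R :=
  (X1 * X2) ^ 2 - 2 * a₄ * (X1 * X2) * (Z1 * Z2) - 4 * a₆ * (X1 * Z2 + X2 * Z1) * (Z1 * Z2) -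
    (4 * a₂ * a₆ - a₄ ^ 2) * (Z1 * Z2) ^ 2

/-- The second form. -/
def T1 {R : Type*} [CommRing R] (a₂ a₄ a₆ X1 Z1 X2 Z2 : R) : R :=
  2 * (X1 * X2) * (X1 * Z2 + X2 * Z1) + 4 * a₂ * (X1 * X2) * (Z1 * Z2) +
    2 * a₄ * (X1 * Z2 + X2 * Z1) * (Z1 * Z2) + 4 * a₆ * (Z1 * Z2) ^ 2

/-- The third form. -/
def T2 {R : Type*} [CommRing R] (X1 Z1 X2 Z2 : R) : R :=
  (X1 * Z2 - X2 * Z1) ^ 2

variable {V : WeierstrassCurve K}

lemma eqn_iff (h1 : V.a₁ = 0) (h3 : V.a₃ = 0) (x y : K) :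
    V.toAffine.Equation x y ↔ y ^ 2 = x ^ 3 + V.a₂ * x ^ 2 + V.a₄ * x + V.a₆ := by
  rw [equation_iff, h1, h3]
  simp

variable [DecidableEq K]

lemma addSub (h1 : V.a₁ = 0) (h3 : V.a₃ = 0) (h2 : (2 : K) ≠ 0) (P R : V.toAffine.Point) :
    ∃ c : K, c ≠ 0 ∧
      T0 V.a₂ V.a₄ V.a₆ (P.xRep 0) (P.xRep 1) (R.xRep 0) (R.xRep 1) =
        c * ((P + R).xRep 0 * (P - R).xRep 0) ∧
      T1 V.a₂ V.a₄ V.a₆ (P.xRep 0) (P.xRep 1) (R.xRep 0) (R.xRep 1) =
        c * ((P + R).xRep 0 * (P - R).xRep 1 + (P - R).xRep 0 * (P + R).xRep 1) ∧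
      T2 (P.xRep 0) (P.xRep 1) (R.xRep 0) (R.xRep 1) =
        c * ((P + R).xRep 1 * (P - R).xRep 1) := by
  rcases P with (_ | ⟨x₁, y₁, hP⟩)
  · refine ⟨1, one_ne_zero, ?_⟩
    have e0 : (Point.zero : V.toAffine.Point) = 0 := rfl
    rw [e0, zero_add, zero_sub, Point.xRep_neg, Point.xRep_zero]
    simp [T0, T1, T2]
    refine ⟨?_, ?_, ?_⟩ <;> ring
  rcases R with (_ | ⟨x₂, y₂, hR⟩)
  · refine ⟨1, one_ne_zero, ?_⟩
    have e0 : (Point.zero : V.toAffine.Point) = 0 := rfl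
    rw [e0, add_zero, sub_zero, Point.xRep_zero]
    simp [T0, T1, T2]
    refine ⟨?_, ?_⟩ <;> ring
  have eP := (eqn_iff h1 h3 x₁ y₁).mp hP.1
  have eR := (eqn_iff h1 h3 x₂ y₂).mp hR.1
  have hnegY : ∀ x y : K, V.toAffine.negY x y = -y := fun x y => by
    rw [negY, h1, h3]; ring
  rw [sub_eq_add_neg, Point.neg_some]
  by_cases hx : x₁ = x₂
  · subst hx
    have hyy : y₁ ^ 2 = y₂ ^ 2 := by rw [eP, eR]
    by_cases hy0 : y₁ = 0
    · have hy2 : y₂ = 0 := by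
        have : y₂ ^ 2 = 0 := by rw [← hyy, hy0]; ring
        exact pow_eq_zero_iff (two_ne_zero) |>.mp this
      subst hy0; subst hy2
      have s1 : Point.some x₁ 0 hP + Point.some x₁ 0 hR = 0 :=
        Point.add_of_Y_eq rfl (by rw [hnegY]; ring)
      have s2 : Point.some x₁ 0 hP + Point.some x₁ (V.toAffine.negY x₁ 0)
          ((nonsingular_neg ..).mpr hR) = 0 :=
        Point.add_of_Y_eq rfl (by rw [hnegY, hnegY]; ring)
      rw [s1, s2]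
      have hns := (nonsingular_iff x₁ 0).mp hP
      rw [h1, h3] at hns
      have hd : 3 * x₁ ^ 2 + 2 * V.a₂ * x₁ + V.a₄ ≠ 0 := by
        intro h
        rcases hns.2 with h' | h'
        · exact h' (by rw [h]; ring)
        · exact h' (by ring)
      refine ⟨(3 * x₁ ^ 2 + 2 * V.a₂ * x₁ + V.a₄) ^ 2, pow_ne_zero 2 hd, ?_⟩
      simp only [Point.xRep_zero, Point.xRep_some, T0, T1, T2, Matrix.cons_val_zero,
        Matrix.cons_val_one]
      refine ⟨?_, ?_, ?_⟩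
      · linear_combination (8 * x₁ + 4 * V.a₂) * eP
      · linear_combination (-4 : K) * eP
      · ring
    · have h2y : y₁ + y₁ ≠ 0 := by
        rw [← two_mul]; exact mul_ne_zero h2 hy0
      rcases sq_eq_sq_iff_eq_or_eq_neg.mp hyy with hy | hy
      · subst hy
        have s2 : Point.some x₁ y₁ hP + Point.some x₁ (V.toAffine.negY x₁ y₁)
          ((nonsingular_neg ..).mpr hR) = 0 :=
          Point.add_of_Y_eq rfl (by rw [hnegY, hnegY]; ring)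
        have hne : y₁ ≠ V.toAffine.negY x₁ y₁ := by
          rw [hnegY]; intro h; apply h2y; linear_combination h
        rw [s2, Point.add_of_Y_ne hne]
        refine ⟨(2 * y₁) ^ 2, pow_ne_zero 2 (mul_ne_zero h2 hy0), ?_⟩
        simp only [Point.xRep_zero, Point.xRep_some, T0, T1, T2, Matrix.cons_val_zero,
          Matrix.cons_val_one]
        rw [addX, slope_of_Y_ne rfl hne, hnegY, h1]
        have h2y' : y₁ - -y₁ ≠ 0 := by rwa [sub_neg_eq_add]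
        refine ⟨?_, ?_, ?_⟩
        · field_simp
          rw [sub_neg_eq_add, ← two_mul]
          field_simp
          linear_combination (8 * x₁ + 4 * V.a₂) * eP
        · linear_combination (-4 : K) * eP
        · ring
      · have hy' : y₂ = -y₁ := by rw [hy]; ring
        subst hy'
        have s2 : Point.some x₁ y₁ hP + Point.some x₁ (-y₁) hR = 0 :=
          Point.add_of_Y_eq rfl (by rw [hnegY]; ring)
        have hne : y₁ ≠ V.toAffine.negY x₁ (V.toAffine.negY x₁ (-y₁)) := by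
          rw [hnegY, hnegY]; intro h; apply h2y; linear_combination h
        rw [s2, Point.add_of_Y_ne hne]
        refine ⟨(2 * y₁) ^ 2, pow_ne_zero 2 (mul_ne_zero h2 hy0), ?_⟩
        simp only [Point.xRep_zero, Point.xRep_some, T0, T1, T2, Matrix.cons_val_zero,
          Matrix.cons_val_one]
        rw [addX, slope_of_Y_ne rfl hne, hnegY, h1]
        have h2y' : y₁ - -y₁ ≠ 0 := by rwa [sub_neg_eq_add]
        refine ⟨?_, ?_, ?_⟩
        · field_simp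
          rw [sub_neg_eq_add, ← two_mul]
          field_simp
          linear_combination (8 * x₁ + 4 * V.a₂) * eP
        · linear_combination (-4 : K) * eP
        · ring
  · rw [Point.add_of_X_ne hx, Point.add_of_X_ne hx]
    refine ⟨(x₁ - x₂) ^ 2, pow_ne_zero 2 (sub_ne_zero.mpr hx), ?_⟩
    simp only [Point.xRep_some, T0, T1, T2, Matrix.cons_val_zero, Matrix.cons_val_one]
    rw [addX, addX, slope_of_X_ne hx, slope_of_X_ne hx, hnegY, h1]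
    have hx' : x₁ - x₂ ≠ 0 := sub_ne_zero.mpr hx
    obtain ⟨l, hl⟩ : ∃ l, l = (y₁ - y₂) / (x₁ - x₂) := ⟨_, rfl⟩
    obtain ⟨m, hm⟩ : ∃ m, m = (y₁ - -y₂) / (x₁ - x₂) := ⟨_, rfl⟩
    rw [← hl, ← hm]
    rw [eq_div_iff hx'] at hl hm
    have e1 : l ^ 2 * (x₁ - x₂) ^ 2 = (y₁ - y₂) ^ 2 := by rw [← hl]; ring
    have e2 : m ^ 2 * (x₁ - x₂) ^ 2 = (y₁ + y₂) ^ 2 := by
      have : y₁ + y₂ = m * (x₁ - x₂) := by rw [hm]; ring
      rw [this]; ring
    refine ⟨?_, ?_, ?_⟩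
    · apply mul_left_cancel₀ (pow_ne_zero 2 hx')
      have e3 : (x₁ - x₂) ^ 2 * ((x₁ - x₂) ^ 2 * ((l ^ 2 + 0 * l - V.a₂ - x₁ - x₂) *
          (m ^ 2 + 0 * m - V.a₂ - x₁ - x₂))) =
          ((y₁ - y₂) ^ 2 - (V.a₂ + x₁ + x₂) * (x₁ - x₂) ^ 2) *
          ((y₁ + y₂) ^ 2 - (V.a₂ + x₁ + x₂) * (x₁ - x₂) ^ 2) := by
        rw [← e1, ← e2]; ring
      rw [e3]
      linear_combination (-((y₁ ^ 2 - y₂ ^ 2 + (x₁ ^ 3 + V.a₂ * x₁ ^ 2 + V.a₄ * x₁ + V.a₆) -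
        (x₂ ^ 3 + V.a₂ * x₂ ^ 2 + V.a₄ * x₂ + V.a₆)) -
        2 * (V.a₂ + x₁ + x₂) * (x₁ - x₂) ^ 2)) * eP -
        (-((y₁ ^ 2 - y₂ ^ 2 + (x₁ ^ 3 + V.a₂ * x₁ ^ 2 + V.a₄ * x₁ + V.a₆) -
        (x₂ ^ 3 + V.a₂ * x₂ ^ 2 + V.a₄ * x₂ + V.a₆))) -
        2 * (V.a₂ + x₁ + x₂) * (x₁ - x₂) ^ 2) * eR
    · linear_combination (-1 : K) * e1 - e2 - 2 * eP - 2 * eR
    · ring

end Pool.Agent.Lib.MP_bf61d2_nt
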